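import Pool.Agent.Lib.MP_86fd08_ag.Table

/-! The Boij-Soederberg decomposition of the Betti table for `b = 1`, `d = 5`. -/

namespace VerBS

/-- the row in which the `t`-th degree sequence lies at column `i` -/
def row (t : Fin 3) (i : ℕ) : ℤ :=
  match t with
  | 0 => if i < 3 then 0 else if i < 17 then 1 else 2
  | 1 => if i < 3 then 0 else if i < 16 then 1 else 2
  | 2 => if i < 2 then 0 else if i < 16 then 1 else 2

lemma row_mono (t : Fin 3) {i j : ℕ} (h : i ≤ j) : row t i ≤ row t j := by
  fin_cases t <;> simp only [row] <;> split_ifs <;> omega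

/-- The three degree sequences. -/
def DD (t : Fin 3) : DegSeq where
  r := 18
  deg i := (i : ℕ) + row t i
  mono := by
    intro i j h
    have h1 : (i : ℕ) < (j : ℕ) := h
    have := row_mono t h1.le
    simp only
    omega

/-- the products of the differences -/
def PN (t : Fin 3) (i : Fin 19) : ℕ :=
  ∏ l ∈ Finset.univ.erase i, (((l : ℕ) : ℤ) + row t l - ((i : ℕ) + row t i)).natAbs

/-- the values of the products -/
def PV (t : Fin 3) (i : ℕ) : ℕ :=
  match t with
  | 0 => ([45053740892160000, 3577797070848000, 800296713216000, 35867639808000, 6035420160000, 1743565824000, 713276928000, 386266890240, 268240896000, 235146240000, 258660864000, 357654528000, 627683696640, 1426553856000, 4358914560000, 19313344512000, 152437469184000, 7602818775552000, 71555941416960000] : List ℕ).getD i 0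
  | 1 => ([47703960944640000, 3801409387776000, 853649827430400, 38626689024000, 6538371840000, 1902071808000, 784604620800, 429185433600, 301771008000, 268738560000, 301771008000, 429185433600, 784604620800, 1902071808000, 6538371840000, 38626689024000, 853649827430400, 3801409387776000, 47703960944640000] : List ℕ).getD i 0
  | 2 => ([71555941416960000, 7602818775552000, 152437469184000, 19313344512000, 4358914560000, 1426553856000, 627683696640, 357654528000, 258660864000, 235146240000, 268240896000, 386266890240, 713276928000, 1743565824000, 6035420160000, 35867639808000, 800296713216000, 3577797070848000, 45053740892160000] : List ℕ).getD i 0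

lemma PN_eq : ∀ (t : Fin 3) (i : Fin 19), PN t i = PV t i := by
  decide +kernel

lemma pure_DD (t : Fin 3) (i : ℕ) (j : ℤ) (hi : i < 19) :
    (DD t).pure i j = if j - i = row t i then 1 / ((PV t i : ℕ) : ℚ) else 0 := by
  unfold DegSeq.pure
  rw [dif_pos (show i < (DD t).r + 1 from hi)]
  have h1 : (j = (DD t).deg ⟨i, hi⟩) ↔ (j - i = row t i) := by
    change j = ((⟨i, hi⟩ : Fin 19) : ℕ) + row t ((⟨i, hi⟩ : Fin 19) : ℕ) ↔ _
    simp only
    constructor <;> intro h <;> omega
  simp only [h1]
  split_ifs with h
  · rw [← PN_eq t ⟨i, hi⟩, PN, Nat.cast_prod, one_div, ← Finset.prod_inv_distrib]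
    refine Finset.prod_congr rfl fun l _ => ?_
    rw [one_div, Nat.cast_natAbs, Int.cast_abs]
    exact congrArg (fun x : ℤ => |(x : ℚ)|⁻¹) rfl
  · rfl

lemma pure_DD_big (t : Fin 3) (i : ℕ) (j : ℤ) (hi : ¬ i < 19) : (DD t).pure i j = 0 := by
  unfold DegSeq.pure
  rw [dif_neg (show ¬ i < (DD t).r + 1 from hi)]

/-- The coefficients. -/
def ca : Fin 3 → ℚ := ![61737175019520000, 36584992604160000, 61737175019520000]

lemma check_zero : ∀ i : Fin 19, ((kap i : ℕ) : ℚ) =
    ∑ t : Fin 3, ca t * (if (0 : ℤ) = row t i then 1 / ((PV t i : ℕ) : ℚ) else 0) := by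
  decide +kernel

lemma check_one : ∀ i : Fin 19, ((mid i : ℕ) : ℚ) =
    ∑ t : Fin 3, ca t * (if (1 : ℤ) = row t i then 1 / ((PV t i : ℕ) : ℚ) else 0) := by
  decide +kernel

lemma check_two : ∀ i : Fin 19, ((kap (18 - i) : ℕ) : ℚ) =
    ∑ t : Fin 3, ca t * (if (2 : ℤ) = row t i then 1 / ((PV t i : ℕ) : ℚ) else 0) := by
  decide +kernel

end VerBS
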