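import Pool.Agent.Lib.MP_86fd08_ag.Stage

/-! From polynomials to coefficient functions. -/

namespace VerBS

open MvPolynomial Classical

variable {k : Type*} [Field k]

lemma homog_iff (f : MvPolynomial (Fin 3) k) (n : ℕ) :
    f ∈ homogeneousSubmodule (Fin 3) k n ↔ ∀ e, coeff e f ≠ 0 → e.degree = n := by
  rw [mem_homogeneousSubmodule, IsHomogeneous, IsWeightedHomogeneous]
  have h : (Finsupp.degree : (Fin 3 →₀ ℕ) →+ ℕ) = Finsupp.weight 1 :=
    Finsupp.degree_eq_weight_one
  constructor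
  · intro h1 e he
    rw [h]
    exact h1 he
  · intro h1 e he
    rw [← h]
    exact h1 e he

lemma mem_Mdeg (q : ℤ) (f : MvPolynomial (Fin 3) k) :
    f ∈ Mdeg k 1 5 q ↔ ∀ e, coeff e f ≠ 0 → ((e.degree : ℕ) : ℤ) = 1 + 5 * q := by
  unfold Mdeg H0
  by_cases hq : 0 ≤ q
  · have h1 : (0 : ℤ) ≤ 1 + q * (5 : ℕ) := by push_cast; linarith
    rw [if_pos hq, if_pos h1, homog_iff]
    refine forall_congr' fun e => imp_congr_right fun _ => ?_
    push_cast
    omega
  · rw [if_neg hq, Submodule.mem_bot]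
    constructor
    · rintro rfl e he
      exact absurd (coeff_zero e) he
    · intro h
      ext e
      rw [coeff_zero]
      by_contra hne
      have := h e hne
      have h2 : (0 : ℤ) ≤ ((e.degree : ℕ) : ℤ) := Int.natCast_nonneg _
      omega

lemma mem_part (p : ℕ) (q : ℤ) (ω : Finset (Var 5) → MvPolynomial (Fin 3) k) :
    ω ∈ part k 1 5 p q ↔
      ∀ J e, coeff e (ω J) ≠ 0 → J.card = p ∧ ((e.degree : ℕ) : ℤ) = 1 + 5 * q := by
  constructor
  · intro h J e he
    by_cases hJ : J.card = p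
    · exact ⟨hJ, (mem_Mdeg q _).1 ((h J).1 hJ) e he⟩
    · rw [(h J).2 hJ, coeff_zero] at he
      exact absurd rfl he
  · intro h J
    refine ⟨fun _ => (mem_Mdeg q _).2 fun e he => (h J e he).2, fun hJ => ?_⟩
    ext e
    rw [coeff_zero]
    by_contra hne
    exact hJ (h J e hne).1

/-- The multiplication operators on polynomials. -/
noncomputable def mo (k : Type*) [Field k] (d : ℕ) (i : Var d) :
    MvPolynomial (Fin 3) k →ₗ[k] MvPolynomial (Fin 3) k :=
  LinearMap.mulLeft k (monomial (ofLex i.1) (1 : k))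

lemma mo_comm (d : ℕ) (i j : Var d) (f : MvPolynomial (Fin 3) k) :
    mo k d i (mo k d j f) = mo k d j (mo k d i f) := by
  simp only [mo, LinearMap.mulLeft_apply]
  ring

lemma kos_eq_kd (d : ℕ) (ω : Finset (Var d) → MvPolynomial (Fin 3) k) :
    kos k d ω = kd (mo k d) ω := by
  funext J
  rw [kd_apply]
  change (∑ i : Var d, _) = _
  refine Finset.sum_congr rfl fun i _ => ?_
  by_cases h : i ∈ J
  · rw [if_pos h, if_pos h]
  · rw [if_neg h, if_neg h, mo, LinearMap.mulLeft_apply]
    exact congrArg (fun S => sgn J i • (monomial (ofLex i.1) (1 : k) * ω S)) (ins_eq _ _ i J)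

lemma kos_kos [CharZero k] (d : ℕ) (ω : Finset (Var d) → MvPolynomial (Fin 3) k) :
    kos k d (kos k d ω) = 0 := by
  rw [kos_eq_kd, kos_eq_kd, kd_kd (mo k d) (mo_comm d)]

/-- coefficient functions -/
noncomputable def cf (k : Type*) [Field k] :
    (Finset (Var 5) → MvPolynomial (Fin 3) k) →ₗ[k] Co k where
  toFun ω J e := coeff e (ω J)
  map_add' f g := by
    funext J e
    simp
  map_smul' c f := by
    funext J e
    simp

lemma cf_apply (ω : Finset (Var 5) → MvPolynomial (Fin 3) k) (J : Finset (Var 5))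
    (e : Fin 3 →₀ ℕ) : cf k ω J e = coeff e (ω J) := rfl

lemma cf_kos (ω : Finset (Var 5) → MvPolynomial (Fin 3) k) :
    cf k (kos k 5 ω) = Dst k 0 (cf k ω) := by
  funext J e
  rw [cf_apply, Dst_apply, if_pos (Reg_zero J e), kd_sh_apply]
  change coeff e (∑ i : Var 5, _) = _
  rw [coeff_sum]
  refine Finset.sum_congr rfl fun i _ => ?_
  by_cases h : i ∈ J
  · rw [if_pos h, if_neg (by simp [h]), coeff_zero]
  · rw [if_neg h, coeff_smul, coeff_monomial_mul', cf_apply]
    by_cases h1 : ex i ≤ e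
    · rw [if_pos h1, if_pos ⟨h, h1⟩, one_mul]
    · rw [if_neg h1, if_neg (fun h2 => h1 h2.2), smul_zero]

lemma cf_inj {ω : Finset (Var 5) → MvPolynomial (Fin 3) k} (h : cf k ω = 0) : ω = 0 := by
  funext J
  ext e
  rw [← cf_apply, h]
  simp

lemma mem_part_iff (p : ℕ) (q : ℤ) (ω : Finset (Var 5) → MvPolynomial (Fin 3) k) :
    ω ∈ part k 1 5 p q ↔ cf k ω ∈ Cst k 0 p q := by
  rw [mem_part, mem_Cst]
  constructor
  · intro h J e he
    exact ⟨(h J e he).1, (h J e he).2, Reg_zero J e⟩
  · intro h J e he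
    exact ⟨(h J e he).1, (h J e he).2.1⟩

lemma map_part (p : ℕ) (q : ℤ) : (part k 1 5 p q).map (cf k) = Cst k 0 p q := by
  apply le_antisymm
  · rintro _ ⟨ω, hω, rfl⟩
    exact (mem_part_iff p q ω).1 hω
  · intro τ hτ
    have hfin : ∀ J, {e | τ J e ≠ 0}.Finite := by
      intro J
      refine (Finsupp.finite_of_degree_eq (1 + 5 * q).toNat).subset ?_
      intro e he
      have := (hτ J e he).2.1
      change e.degree = _
      omega
    let ω : Finset (Var 5) → MvPolynomial (Fin 3) k := fun J =>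
      ∑ e ∈ (hfin J).toFinset, monomial e (τ J e)
    have hω : cf k ω = τ := by
      funext J e
      rw [cf_apply]
      change coeff e (∑ e ∈ (hfin J).toFinset, monomial e (τ J e)) = _
      rw [coeff_sum]
      simp only [coeff_monomial]
      rw [Finset.sum_ite_eq' (hfin J).toFinset e (fun e => τ J e)]
      split_ifs with h
      · rfl
      · have h' : τ J e = 0 := by simpa using h
        exact h'.symm
    refine ⟨ω, ?_, hω⟩
    rw [SetLike.mem_coe, mem_part_iff, hω]
    exact hτ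

theorem hd_kos [CharZero k] (p : ℕ) (q : ℤ) :
    hd (kos k 5) (part k 1 5) p q = hd (Dst k 0) (Cst k 0) p q := by
  refine hd_eq _ _ _ _ (cf k) (fun p q ω _ => cf_kos ω) map_part ?_ ?_ (kos_kos 5) ?_ p q
  · intro q ω h
    apply cf_inj
    rw [cf_kos]
    exact Dst_zero k 0 q _ ((mem_part_iff 0 q ω).1 h)
  · intro p q ω h
    rw [mem_part_iff, cf_kos]
    exact Dst_mem k 0 p q _ ((mem_part_iff _ q ω).1 h)
  · intro p q ω _ _ h
    refine ⟨0, Submodule.zero_mem _, map_zero _, ?_⟩
    rw [cf_inj h, map_zero]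

end VerBS
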