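import Mathlib

/-! Koszul cohomology of the Veronese modules of the plane, pure diagrams and
Boij-Soederberg decompositions. -/

namespace VerBS

open MvPolynomial

/-- `H^0(P^2, O(n))`: the forms of degree `n` in three variables (zero for `n < 0`). -/
noncomputable def H0 (k : Type*) [Field k] (n : ℤ) : Submodule k (MvPolynomial (Fin 3) k) :=
  if 0 ≤ n then homogeneousSubmodule (Fin 3) k n.toNat else ⊥

/-- The degree `q` part of the module `M`, the sum over `m ≥ 0` of `H^0(P^2, O(b + m d))`. -/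
noncomputable def Mdeg (k : Type*) [Field k] (b : ℤ) (d : ℕ) (q : ℤ) :
    Submodule k (MvPolynomial (Fin 3) k) :=
  if 0 ≤ q then H0 k (b + q * d) else ⊥

/-- The variables of `S = Sym H^0(P^2, O(d))`: the monomials of degree `d` in three variables
(their exponent vectors), in lexicographic order. -/
abbrev Var (d : ℕ) : Type := {m : Lex (Fin 3 →₀ ℕ) // (ofLex m).degree = d}

instance (d : ℕ) : Finite (Var d) := (Finsupp.finite_of_degree_eq (σ := Fin 3) d).to_subtype

noncomputable instance (d : ℕ) : Fintype (Var d) := Fintype.ofFinite _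

/-- The sign `(-1) ^ #{j ∈ J : j < i}`. -/
noncomputable def sgn {ι : Type*} [LinearOrder ι] (J : Finset ι) (i : ι) : ℤ :=
  (-1) ^ (J.filter (fun j => j < i)).card

/-- The Koszul differential on the variables of `S` with coefficients in the polynomial ring
`k[x_0, x_1, x_2]`, on which the variable `i` of `S` acts as the monomial `i`.
A family `ω` stands for the sum of all `e_I ⊗ ω I`, and `e_I ⊗ m` goes to the sum over `i ∈ I` of
`(-1) ^ #{j ∈ I : j < i} e_(I - i) ⊗ (x^i m)`. -/
noncomputable def kos (k : Type*) [Field k] (d : ℕ) :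
    (Finset (Var d) → MvPolynomial (Fin 3) k) →ₗ[k] (Finset (Var d) → MvPolynomial (Fin 3) k) where
  toFun ω J := ∑ i : Var d, if i ∈ J then 0 else
    sgn J i • (monomial (ofLex i.1) (1 : k) * ω (insert i J))
  map_add' ω ω' := by
    funext J
    simp only [Pi.add_apply, mul_add, smul_add]
    rw [← Finset.sum_add_distrib]
    refine Finset.sum_congr rfl fun i _ => ?_
    split_ifs <;> simp
  map_smul' c ω := by
    funext J
    simp only [Pi.smul_apply, RingHom.id_apply, Finset.smul_sum]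
    refine Finset.sum_congr rfl fun i _ => ?_
    split_ifs
    · simp
    · rw [mul_smul_comm, smul_comm]

/-- `Λ^p S_1 ⊗ M_q`: the families supported on the sets with `p` elements, with values in `M_q`. -/
def part (k : Type*) [Field k] (b : ℤ) (d p : ℕ) (q : ℤ) :
    Submodule k (Finset (Var d) → MvPolynomial (Fin 3) k) where
  carrier := {ω | ∀ J, (J.card = p → ω J ∈ Mdeg k b d q) ∧ (J.card ≠ p → ω J = 0)}
  zero_mem' := fun J => ⟨fun _ => Submodule.zero_mem _, fun _ => rfl⟩
  add_mem' := by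
    intro ω ω' h h' J
    exact ⟨fun e => Submodule.add_mem _ ((h J).1 e) ((h' J).1 e),
      fun e => by simp [(h J).2 e, (h' J).2 e]⟩
  smul_mem' := by
    intro c ω h J
    exact ⟨fun e => Submodule.smul_mem _ c ((h J).1 e), fun e => by simp [(h J).2 e]⟩

/-- The cycles in `Λ^p S_1 ⊗ M_q`. -/
noncomputable def cyc (k : Type*) [Field k] (b : ℤ) (d p : ℕ) (q : ℤ) :
    Submodule k (Finset (Var d) → MvPolynomial (Fin 3) k) :=
  part k b d p q ⊓ LinearMap.ker (kos k d)

/-- The boundaries in `Λ^p S_1 ⊗ M_q`, the image of `Λ^(p+1) S_1 ⊗ M_(q-1)`. -/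
noncomputable def bdy (k : Type*) [Field k] (b : ℤ) (d p : ℕ) (q : ℤ) :
    Submodule k (Finset (Var d) → MvPolynomial (Fin 3) k) :=
  (part k b d (p + 1) (q - 1)).map (kos k d)

/-- The graded Betti number `β_{p,j}(P^2, b; d) = dim Tor_p(M, k)_j`, computed as the dimension of
the Koszul cohomology group `K_{p,q}(P^2, b; d)` with `q = j - p`. -/
noncomputable def betti (k : Type*) [Field k] (b : ℤ) (d p : ℕ) (j : ℤ) : ℕ :=
  Module.finrank k (cyc k b d p (j - p) ⧸ (bdy k b d p (j - p)).submoduleOf (cyc k b d p (j - p)))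

/-- A degree sequence `d_0 < d_1 < ... < d_r`. -/
structure DegSeq where
  /-- the length `r` -/
  r : ℕ
  /-- the entries -/
  deg : Fin (r + 1) → ℤ
  /-- strictly increasing -/
  mono : StrictMono deg

/-- The entry at `(i, j)` of the pure diagram of a degree sequence: at `(i, d_i)` it is the product
over `l ≠ i` of `1 / |d_l - d_i|`, and all other entries are zero. -/
def DegSeq.pure (D : DegSeq) (i : ℕ) (j : ℤ) : ℚ :=
  if h : i < D.r + 1 then
    if j = D.deg ⟨i, h⟩ then
      ∏ l ∈ Finset.univ.erase (⟨i, h⟩ : Fin (D.r + 1)), 1 / |((D.deg l - D.deg ⟨i, h⟩ : ℤ) : ℚ)|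
    else 0
  else 0

/-- The order on degree sequences: `D ≤ D'` if `r ≥ r'` and `d_i ≤ d'_i` for `0 ≤ i ≤ r'`. -/
def DegSeq.Le (D D' : DegSeq) : Prop :=
  D'.r ≤ D.r ∧ ∀ (i : ℕ) (h : i < D.r + 1) (h' : i < D'.r + 1), D.deg ⟨i, h⟩ ≤ D'.deg ⟨i, h'⟩

/-- A Boij-Soederberg decomposition of a table `β`: a chain `D 0 < D 1 < ...` of degree sequences
and positive rationals `a t` with `β = ∑ a t • pure (D t)`. -/
structure IsBS (β : ℕ → ℤ → ℚ) {s : ℕ} (D : Fin s → DegSeq) (a : Fin s → ℚ) : Prop where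
  chain : ∀ t t' : Fin s, t < t' → (D t).Le (D t') ∧ D t ≠ D t'
  pos : ∀ t, 0 < a t
  sum_eq : ∀ i j, β i j = ∑ t, a t * (D t).pure i j

/-- A finite sequence is unimodal if for some `t` it is nondecreasing up to `t` and nonincreasing
from `t` on. -/
def Unimodal {s : ℕ} (a : Fin s → ℚ) : Prop :=
  ∃ t : Fin s, (∀ u v : Fin s, u ≤ v → v ≤ t → a u ≤ a v) ∧
    (∀ u v : Fin s, t ≤ u → u ≤ v → a v ≤ a u)

end VerBS
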