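import Pool.Agent.Lib.MP_86fd08_ag.Coef
import Mathlib.LinearAlgebra.Matrix.MvPolynomial
import Mathlib.LinearAlgebra.Matrix.ToLinearEquiv

/-! Vanishing of `K_{p,0}` for `p ≥ 3`. -/

namespace VerBS

open MvPolynomial Classical

variable {k : Type*} [Field k]

/-- the three embeddings of the polynomial ring -/
noncomputable def ph (k : Type*) [Field k] (s : Fin 3) :
    MvPolynomial (Fin 3) k →ₐ[k] MvPolynomial (Fin 3 × Fin 3) k :=
  rename (fun b => (s, b))

/-- the exponent of a product of three monomials -/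
noncomputable def emb (i j l : Var 5) : (Fin 3 × Fin 3) →₀ ℕ :=
  (ex i).mapDomain (fun b => ((0 : Fin 3), b)) + (ex j).mapDomain (fun b => ((1 : Fin 3), b)) +
    (ex l).mapDomain (fun b => ((2 : Fin 3), b))

lemma mapDomain_same (s : Fin 3) (f : Fin 3 →₀ ℕ) (b : Fin 3) :
    (f.mapDomain (fun b => (s, b))) (s, b) = f b :=
  Finsupp.mapDomain_apply (Prod.mk_right_injective s) f b

lemma mapDomain_other {s t : Fin 3} (h : s ≠ t) (f : Fin 3 →₀ ℕ) (b : Fin 3) :
    (f.mapDomain (fun b => (s, b))) (t, b) = 0 := by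
  apply Finsupp.mapDomain_of_notMem_range
  rintro ⟨c, hc⟩
  exact h (congrArg Prod.fst hc)

lemma emb_inj {i j l i' j' l' : Var 5} (h : emb i j l = emb i' j' l') :
    i = i' ∧ j = j' ∧ l = l' := by
  have h0 : ∀ b, ex i b = ex i' b := by
    intro b
    have := DFunLike.congr_fun h ((0 : Fin 3), b)
    simpa only [emb, Finsupp.add_apply, mapDomain_same,
      mapDomain_other (show (1 : Fin 3) ≠ 0 by decide),
      mapDomain_other (show (2 : Fin 3) ≠ 0 by decide), add_zero] using this
  have h1 : ∀ b, ex j b = ex j' b := by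
    intro b
    have := DFunLike.congr_fun h ((1 : Fin 3), b)
    simpa only [emb, Finsupp.add_apply, mapDomain_same,
      mapDomain_other (show (0 : Fin 3) ≠ 1 by decide),
      mapDomain_other (show (2 : Fin 3) ≠ 1 by decide), add_zero, zero_add] using this
  have h2 : ∀ b, ex l b = ex l' b := by
    intro b
    have := DFunLike.congr_fun h ((2 : Fin 3), b)
    simpa only [emb, Finsupp.add_apply, mapDomain_same,
      mapDomain_other (show (0 : Fin 3) ≠ 2 by decide),
      mapDomain_other (show (1 : Fin 3) ≠ 2 by decide), add_zero, zero_add] using this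
  refine ⟨Subtype.ext ?_, Subtype.ext ?_, Subtype.ext ?_⟩
  · exact Finsupp.ext h0
  · exact Finsupp.ext h1
  · exact Finsupp.ext h2

lemma degree_one {e : Fin 3 →₀ ℕ} (h : e.degree = 1) : ∃ a : Fin 3, e = Finsupp.single a 1 := by
  rw [Finsupp.degree_eq_sum, Fin.sum_univ_three] at h
  have h3 : (e 0 = 1 ∧ e 1 = 0 ∧ e 2 = 0) ∨ (e 0 = 0 ∧ e 1 = 1 ∧ e 2 = 0) ∨
      (e 0 = 0 ∧ e 1 = 0 ∧ e 2 = 1) := by omega
  rcases h3 with ⟨a, b, c⟩ | ⟨a, b, c⟩ | ⟨a, b, c⟩
  · refine ⟨0, Finsupp.ext fun x => ?_⟩
    fin_cases x <;> simp [a, b, c]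
  · refine ⟨1, Finsupp.ext fun x => ?_⟩
    fin_cases x <;> simp [a, b, c]
  · refine ⟨2, Finsupp.ext fun x => ?_⟩
    fin_cases x <;> simp [a, b, c]

lemma linear_form (f : MvPolynomial (Fin 3) k) (h : ∀ e, coeff e f ≠ 0 → e.degree = 1) :
    f = ∑ a : Fin 3, C (coeff (Finsupp.single a 1) f) * X a := by
  ext e
  rw [coeff_sum]
  by_cases he : e.degree = 1
  · obtain ⟨a, rfl⟩ := degree_one he
    rw [Finset.sum_eq_single a]
    · rw [coeff_C_mul, coeff_X, if_pos rfl, mul_one]
    · intro b _ hb
      rw [coeff_C_mul, coeff_X, if_neg, mul_zero]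
      intro h1
      exact hb (Finsupp.single_left_injective one_ne_zero h1)
    · intro h1
      exact absurd (Finset.mem_univ _) h1
  · have h1 : coeff e f = 0 := by
      by_contra h1
      exact he (h e h1)
    rw [h1, eq_comm]
    refine Finset.sum_eq_zero fun a _ => ?_
    rw [coeff_C_mul, coeff_X, if_neg, mul_zero]
    rintro rfl
    exact he (Finsupp.degree_single _ _)

/-- The determinant lemma. -/
theorem det_lemma (G : Var 5 → Var 5 → Var 5 → MvPolynomial (Fin 3) k)
    (hG : ∀ i j l e, coeff e (G i j l) ≠ 0 → e.degree = 1)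
    (h0 : ∀ j l, ∑ i, monomial (ex i) (1 : k) * G i j l = 0)
    (h1 : ∀ i l, ∑ j, monomial (ex j) (1 : k) * G i j l = 0)
    (h2 : ∀ i j, ∑ l, monomial (ex l) (1 : k) * G i j l = 0) (i j l : Var 5) :
    G i j l = 0 := by
  set P : Fin 3 → MvPolynomial (Fin 3 × Fin 3) k := fun a =>
    ∑ i, ∑ j, ∑ l, C (coeff (Finsupp.single a 1) (G i j l)) *
      (ph k 0 (monomial (ex i) 1) * ph k 1 (monomial (ex j) 1) * ph k 2 (monomial (ex l) 1)) with hP
  have hlin : ∀ (s : Fin 3) (i j l : Var 5), ph k s (G i j l) =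
      ∑ a, C (coeff (Finsupp.single a 1) (G i j l)) * X (s, a) := by
    intro s i j l
    conv_lhs => rw [linear_form (G i j l) (hG i j l)]
    rw [map_sum]
    refine Finset.sum_congr rfl fun a _ => ?_
    rw [map_mul, ph, rename_C, rename_X]
  have hsum : ∀ s : Fin 3, ∑ a, X (s, a) * P a = ∑ i, ∑ j, ∑ l, ph k s (G i j l) *
      (ph k 0 (monomial (ex i) 1) * ph k 1 (monomial (ex j) 1) * ph k 2 (monomial (ex l) 1)) := by
    intro s
    simp only [hlin, hP, Finset.mul_sum, Finset.sum_mul]
    rw [Finset.sum_comm]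
    refine Finset.sum_congr rfl fun i _ => ?_
    rw [Finset.sum_comm]
    refine Finset.sum_congr rfl fun j _ => ?_
    rw [Finset.sum_comm]
    refine Finset.sum_congr rfl fun l _ => Finset.sum_congr rfl fun a _ => ?_
    ring
  have hz : ∀ s : Fin 3, ∑ a, X (s, a) * P a = 0 := by
    intro s
    rw [hsum]
    fin_cases s
    · change (∑ i, ∑ j, ∑ l, ph k 0 (G i j l) * _) = 0
      rw [Finset.sum_comm]
      refine Finset.sum_eq_zero fun j _ => ?_
      rw [Finset.sum_comm]
      refine Finset.sum_eq_zero fun l _ => ?_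
      have := congrArg (fun f => ph k 0 f * (ph k 1 (monomial (ex j) 1) *
        ph k 2 (monomial (ex l) 1))) (h0 j l)
      simp only [map_sum, map_mul, map_zero, zero_mul, Finset.sum_mul] at this
      rw [← this]
      refine Finset.sum_congr rfl fun i _ => ?_
      ring
    · change (∑ i, ∑ j, ∑ l, ph k 1 (G i j l) * _) = 0
      refine Finset.sum_eq_zero fun i _ => ?_
      rw [Finset.sum_comm]
      refine Finset.sum_eq_zero fun l _ => ?_
      have := congrArg (fun f => ph k 1 f * (ph k 0 (monomial (ex i) 1) *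
        ph k 2 (monomial (ex l) 1))) (h1 i l)
      simp only [map_sum, map_mul, map_zero, zero_mul, Finset.sum_mul] at this
      rw [← this]
      refine Finset.sum_congr rfl fun i _ => ?_
      ring
    · change (∑ i, ∑ j, ∑ l, ph k 2 (G i j l) * _) = 0
      refine Finset.sum_eq_zero fun i _ => Finset.sum_eq_zero fun j _ => ?_
      have := congrArg (fun f => ph k 2 f * (ph k 0 (monomial (ex i) 1) *
        ph k 1 (monomial (ex j) 1))) (h2 i j)
      simp only [map_sum, map_mul, map_zero, zero_mul, Finset.sum_mul] at this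
      rw [← this]
      refine Finset.sum_congr rfl fun i _ => ?_
      ring
  have hP0 : P = 0 := by
    refine Matrix.eq_zero_of_mulVec_eq_zero (M := Matrix.mvPolynomialX (Fin 3) (Fin 3) k)
      (Matrix.det_mvPolynomialX_ne_zero _ _) ?_
    funext s
    rw [Matrix.mulVec, dotProduct]
    exact hz s
  have hmon : ∀ i j l : Var 5, ph k 0 (monomial (ex i) (1 : k)) * ph k 1 (monomial (ex j) 1) *
      ph k 2 (monomial (ex l) 1) = monomial (emb i j l) 1 := by
    intro i j l
    simp only [ph, rename_monomial, monomial_mul, mul_one, emb]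
  have hc : ∀ a, coeff (Finsupp.single a 1) (G i j l) = 0 := by
    intro a
    have h3 : coeff (emb i j l) (P a) = 0 := by rw [hP0]; simp
    have h4 : coeff (emb i j l) (P a) = coeff (Finsupp.single a 1) (G i j l) := by
      simp only [hP, hmon, coeff_sum, coeff_C_mul, coeff_monomial]
      rw [Finset.sum_eq_single i, Finset.sum_eq_single j, Finset.sum_eq_single l]
      · rw [if_pos rfl, mul_one]
      · intro l' _ hl'
        rw [if_neg (fun h => hl' (emb_inj h).2.2), mul_zero]
      · intro h; exact absurd (Finset.mem_univ _) h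
      · intro j' _ hj'
        refine Finset.sum_eq_zero fun l' _ => ?_
        rw [if_neg (fun h => hj' (emb_inj h).2.1), mul_zero]
      · intro h; exact absurd (Finset.mem_univ _) h
      · intro i' _ hi'
        refine Finset.sum_eq_zero fun j' _ => Finset.sum_eq_zero fun l' _ => ?_
        rw [if_neg (fun h => hi' (emb_inj h).1), mul_zero]
      · intro h; exact absurd (Finset.mem_univ _) h
    rw [← h4, h3]
  rw [linear_form (G i j l) (hG i j l)]
  refine Finset.sum_eq_zero fun a _ => ?_
  rw [hc a, C_0, zero_mul]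

lemma con_comp {ι : Type*} [LinearOrder ι] {N : Type*} [AddCommGroup N] [Module k N]
    (f : N →ₗ[k] N) (j : ι) (θ : Finset ι → N) (J : Finset ι) :
    con k j (fun J => f (θ J)) J = f (con k j θ J) := by
  rw [con_apply, con_apply]
  split_ifs
  · simp
  · rw [map_zsmul]

lemma zsmul_sgn_eq_zero {ι : Type*} [LinearOrder ι] {N : Type*} [AddCommGroup N]
    {J : Finset ι} {i : ι} {x : N} (h : sgn J i • x = 0) : x = 0 := by
  have h1 : sgn J i • (sgn J i • x) = 0 := by rw [h, smul_zero]
  rwa [smul_smul, sgn_mul_self, one_smul] at h1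

theorem cycle_zero (p : ℕ) (hp : 3 ≤ p) (ω : Finset (Var 5) → MvPolynomial (Fin 3) k)
    (hω : ω ∈ part k 1 5 p 0) (hk : kos k 5 ω = 0) : ω = 0 := by
  have hk' : ∀ J, ∑ i, mo k 5 i (con k i ω J) = 0 := by
    intro J
    rw [← kd_eq_con, ← kos_eq_kd, hk]
    rfl
  have hk2 : ∀ i j J, ∑ l, mo k 5 l (con k i (con k j (con k l ω)) J) = 0 := by
    intro i j J
    have h1 : (fun J => ∑ l, mo k 5 l (con k l ω J)) = (0 : Finset (Var 5) → _) := by
      funext J; exact hk' J
    have h2 : ∀ J, con k j (fun J => ∑ l, mo k 5 l (con k l ω J)) J =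
        ∑ l, mo k 5 l (con k j (con k l ω) J) := by
      intro J
      have : (fun J => ∑ l, mo k 5 l (con k l ω J)) =
          ∑ l, (fun J => mo k 5 l (con k l ω J)) := by
        funext J; rw [Finset.sum_apply]
      rw [this, map_sum, Finset.sum_apply]
      exact Finset.sum_congr rfl fun l _ => con_comp _ _ _ _
    have h3 : (fun J => ∑ l, mo k 5 l (con k j (con k l ω) J)) = (0 : Finset (Var 5) → _) := by
      funext J
      rw [← h2, h1, map_zero]
    have h4 : con k i (fun J => ∑ l, mo k 5 l (con k j (con k l ω) J)) J =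
        ∑ l, mo k 5 l (con k i (con k j (con k l ω)) J) := by
      have : (fun J => ∑ l, mo k 5 l (con k j (con k l ω) J)) =
          ∑ l, (fun J => mo k 5 l (con k j (con k l ω) J)) := by
        funext J; rw [Finset.sum_apply]
      rw [this, map_sum, Finset.sum_apply]
      exact Finset.sum_congr rfl fun l _ => con_comp _ _ _ _
    rw [← h4, h3, map_zero]
    rfl
  have hcon : ∀ (θ : Finset (Var 5) → MvPolynomial (Fin 3) k),
      (∀ J e, coeff e (θ J) ≠ 0 → e.degree = 1) → ∀ i,
      (∀ J e, coeff e (con k i θ J) ≠ 0 → e.degree = 1) := by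
    intro θ hθ i J e h
    rw [con_apply] at h
    split_ifs at h with h1
    · exact absurd (coeff_zero e) h
    · rw [coeff_smul] at h
      exact hθ _ e (right_ne_zero_of_smul h)
  have hω1 : ∀ J e, coeff e (ω J) ≠ 0 → e.degree = 1 := by
    intro J e h
    have := ((mem_part p 0 ω).1 hω J e h).2
    omega
  have hG0 : ∀ J i j l, con k i (con k j (con k l ω)) J = 0 := by
    intro J
    refine det_lemma (fun i j l => con k i (con k j (con k l ω)) J) ?_ ?_ ?_ ?_
    · intro i j l
      exact hcon _ (hcon _ (hcon _ hω1 l) j) i J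
    · intro j l
      rw [← hk2 j l J]
      refine Finset.sum_congr rfl fun i _ => ?_
      rw [mo, LinearMap.mulLeft_apply]
      congr 1
      rw [con_con i j, con_con i l, map_neg]
      simp
    · intro i l
      have h1 := hk2 i l J
      rw [← neg_eq_zero, ← Finset.sum_neg_distrib] at h1
      rw [← h1]
      refine Finset.sum_congr rfl fun j _ => ?_
      rw [mo, LinearMap.mulLeft_apply, con_con j l, map_neg]
      simp
    · intro i j
      exact hk2 i j J
  funext J
  by_cases hJ : J.card = p
  · have hJ3 : 3 ≤ J.card := by omega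
    obtain ⟨i, hi⟩ : J.Nonempty := Finset.card_pos.1 (by omega)
    have hc1 : (J.erase i).card + 1 = J.card := Finset.card_erase_add_one hi
    obtain ⟨j, hj⟩ : (J.erase i).Nonempty := Finset.card_pos.1 (by omega)
    have hc2 : ((J.erase i).erase j).card + 1 = (J.erase i).card := Finset.card_erase_add_one hj
    obtain ⟨l, hl⟩ : ((J.erase i).erase j).Nonempty := Finset.card_pos.1 (by omega)
    have h1 := hG0 (((J.erase i).erase j).erase l) l j i
    rw [con_apply, if_neg (Finset.notMem_erase _ _)] at h1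
    have h2 := zsmul_sgn_eq_zero h1
    have e1 : insert l (((J.erase i).erase j).erase l) = (J.erase i).erase j :=
      Finset.insert_erase hl
    have h3 : con k j (con k i ω) ((J.erase i).erase j) = 0 := by
      rw [← e1, ← h2]
      exact congrArg (con k j (con k i ω)) (ins_eq _ _ _ _)
    rw [con_apply, if_neg (Finset.notMem_erase _ _)] at h3
    have h4 := zsmul_sgn_eq_zero h3
    have e2 : insert j ((J.erase i).erase j) = J.erase i := Finset.insert_erase hj
    have h5 : con k i ω (J.erase i) = 0 := by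
      rw [← e2, ← h4]
      exact congrArg (con k i ω) (ins_eq _ _ _ _)
    rw [con_apply, if_neg (Finset.notMem_erase _ _)] at h5
    have h6 := zsmul_sgn_eq_zero h5
    have e3 : insert i (J.erase i) = J := Finset.insert_erase hi
    have h7 : ω (insert i (J.erase i)) = 0 := by
      rw [← h6]
      exact congrArg ω (ins_eq _ _ _ _)
    rw [e3] at h7
    exact h7
  · exact (hω J).2 hJ

theorem hd_zero_of_three_le (p : ℕ) (hp : 3 ≤ p) : hd (kos k 5) (part k 1 5) p 0 = 0 := by
  have h : part k 1 5 p 0 ⊓ LinearMap.ker (kos k 5) = ⊥ := by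
    rw [eq_bot_iff]
    rintro ω ⟨h1, h2⟩
    rw [Submodule.mem_bot]
    exact cycle_zero p hp ω h1 h2
  unfold hd
  rw [h]
  exact Module.finrank_zero_of_subsingleton

end VerBS
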