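import Pool.Agent.Lib.MP_86fd08_ag.Stage

/-! The finite Artinian complex. -/

namespace VerBS

open Classical

variable {k : Type*} [Field k]

/-- the remaining variables -/
abbrev Vb : Type := {i : Var 5 // ∀ a, i ≠ uv a}

/-- the box of exponents at most `4` -/
abbrev Bx : Type := Fin 3 → Fin 5

/-- the index set of the finite complex -/
abbrev Yb : Type := Finset Vb × Bx

/-- exponent vector of an element of the box -/
noncomputable def toE (e : Bx) : Fin 3 →₀ ℕ := Finsupp.equivFunOnFinite.symm (fun a => (e a : ℕ))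

lemma toE_apply (e : Bx) (a : Fin 3) : toE e a = (e a : ℕ) := rfl

lemma toE_inj {e f : Bx} (h : toE e = toE f) : e = f := by
  funext a
  have := DFunLike.congr_fun h a
  rw [toE_apply, toE_apply] at this
  exact Fin.ext this

lemma toE_surj {e : Fin 3 →₀ ℕ} (h : ∀ a, e a ≤ 4) : ∃ f : Bx, toE f = e := by
  refine ⟨fun a => ⟨e a, by have := h a; omega⟩, ?_⟩
  ext a
  rfl

/-- push forward of index sets -/
noncomputable def mJ (J : Finset Vb) : Finset (Var 5) := J.map ⟨Subtype.val, Subtype.val_injective⟩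

lemma mem_mJ {J : Finset Vb} {i : Vb} : i.1 ∈ mJ J ↔ i ∈ J := by
  unfold mJ
  rw [Finset.mem_map]
  constructor
  · rintro ⟨j, hj, hij⟩
    rwa [← Subtype.ext hij]
  · intro h
    exact ⟨i, h, rfl⟩

lemma mJ_avoid (J : Finset Vb) (a : Fin 3) : uv a ∉ mJ J := by
  unfold mJ
  rw [Finset.mem_map]
  rintro ⟨j, -, hj⟩
  exact j.2 a hj

lemma mJ_inj {J J' : Finset Vb} (h : mJ J = mJ J') : J = J' := Finset.map_injective _ h

lemma mJ_card (J : Finset Vb) : (mJ J).card = J.card := Finset.card_map _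

lemma mJ_insert (i : Vb) (J : Finset Vb) : mJ (insert i J) = insert i.1 (mJ J) := by
  unfold mJ
  rw [Finset.map_insert]
  rfl

lemma mJ_surj {J : Finset (Var 5)} (h : ∀ a, uv a ∉ J) : ∃ J' : Finset Vb, mJ J' = J := by
  refine ⟨J.subtype (fun i => ∀ a, i ≠ uv a), ?_⟩
  unfold mJ
  exact Finset.subtype_map_of_mem (fun x hx a hxa => h a (hxa ▸ hx))

lemma sgn_mJ (J : Finset Vb) (i : Vb) : sgn (mJ J) i.1 = sgn J i := by
  unfold sgn
  congr 1
  symm
  refine Finset.card_bij (fun j _ => j.1) ?_ (fun _ _ _ _ h => Subtype.ext h) ?_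
  · intro j hj
    rw [Finset.mem_filter] at hj ⊢
    exact ⟨mem_mJ.2 hj.1, hj.2⟩
  · intro x hx
    rw [Finset.mem_filter] at hx
    obtain ⟨h1, h2⟩ := hx
    unfold mJ at h1
    rw [Finset.mem_map] at h1
    obtain ⟨j, hj, rfl⟩ := h1
    exact ⟨j, Finset.mem_filter.2 ⟨hj, h2⟩, rfl⟩

lemma Reg_mJ (J : Finset Vb) (e : Bx) : Reg 3 (mJ J) (toE e) := by
  intro a _
  refine ⟨?_, mJ_avoid J a⟩
  rw [toE_apply]
  omega

lemma Reg_surj {J : Finset (Var 5)} {e : Fin 3 →₀ ℕ} (h : Reg 3 J e) :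
    ∃ y : Yb, mJ y.1 = J ∧ toE y.2 = e := by
  obtain ⟨J', hJ'⟩ := mJ_surj (fun a => (h a a.2).2)
  obtain ⟨e', he'⟩ := toE_surj (fun a => (h a a.2).1)
  exact ⟨(J', e'), hJ', he'⟩

/-- the restriction map -/
noncomputable def pr (k : Type*) [Field k] : Co k →ₗ[k] (Yb → k) where
  toFun ω y := ω (mJ y.1) (toE y.2)
  map_add' _ _ := rfl
  map_smul' _ _ := rfl

lemma pr_apply (ω : Co k) (y : Yb) : pr k ω y = ω (mJ y.1) (toE y.2) := rfl

/-- the matrix of the differential -/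
noncomputable def Am (k : Type*) [Field k] : Matrix Yb Yb k := fun y y' =>
  ∑ i : Vb, if i ∉ y.1 ∧ y'.1 = insert i y.1 ∧ toE y.2 = toE y'.2 + ex i.1
    then ((sgn y.1 i : ℤ) : k) else 0

/-- the part of bidegree `(p, q)` -/
def Cb (k : Type*) [Field k] (p : ℕ) (q : ℤ) : Submodule k (Yb → k) where
  carrier := {ω | ∀ y, ω y ≠ 0 → y.1.card = p ∧ (((toE y.2).degree : ℕ) : ℤ) = 1 + 5 * q}
  zero_mem' := fun y h => absurd rfl h
  add_mem' := by
    intro ω ω' h h' y hne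
    by_cases h0 : ω y = 0
    · refine h' y fun h1 => hne ?_
      rw [Pi.add_apply, h0, h1, add_zero]
    · exact h y h0
  smul_mem' := by
    intro c ω h y hne
    refine h y fun h1 => hne ?_
    rw [Pi.smul_apply, h1, smul_zero]

lemma ex_not_le (a : Fin 3) (e : Bx) : ¬ ex (uv a) ≤ toE e := by
  intro h
  have := h a
  rw [ex_uv, Finsupp.single_eq_same, toE_apply] at this
  omega

lemma pr_D (ω : Co k) : pr k (Dst k 3 ω) = (Am k).mulVecLin (pr k ω) := by
  funext y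
  rw [pr_apply, Dst_apply, if_pos (Reg_mJ _ _), kd_sh_apply, Matrix.mulVecLin_apply,
    Matrix.mulVec, dotProduct]
  simp only [Am, Finset.sum_mul, pr_apply]
  rw [Finset.sum_comm]
  -- the sum over all variables reduces to the sum over `Vb`
  have h1 : (∑ i : Var 5, if i ∉ mJ y.1 ∧ ex i ≤ toE y.2 then
      sgn (mJ y.1) i • ω (insert i (mJ y.1)) (toE y.2 - ex i) else 0) =
      ∑ i : Vb, if i.1 ∉ mJ y.1 ∧ ex i.1 ≤ toE y.2 then
      sgn (mJ y.1) i.1 • ω (insert i.1 (mJ y.1)) (toE y.2 - ex i.1) else 0 := by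
    symm
    apply Finset.sum_of_injOn (fun i : Vb => i.1) (fun _ _ _ _ h => Subtype.ext h)
    · intro i _
      exact Finset.mem_coe.2 (Finset.mem_univ _)
    · intro i _ hi
      rw [if_neg]
      rintro ⟨-, h2⟩
      apply hi
      refine ⟨⟨i, ?_⟩, Finset.mem_coe.2 (Finset.mem_univ _), rfl⟩
      rintro a rfl
      exact ex_not_le a _ h2
    · intro i _
      rfl
  rw [h1]
  refine Finset.sum_congr rfl fun i _ => ?_
  by_cases h : i.1 ∉ mJ y.1 ∧ ex i.1 ≤ toE y.2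
  · rw [if_pos h]
    obtain ⟨f, hf⟩ := toE_surj (e := toE y.2 - ex i.1) (fun a => by
      have : (toE y.2) a ≤ 4 := by rw [toE_apply]; omega
      exact le_trans (by simp) this)
    have hi : i ∉ y.1 := fun hi => h.1 (mem_mJ.2 hi)
    rw [Finset.sum_eq_single ((insert i y.1, f) : Yb)]
    · have h2 : toE y.2 = toE f + ex i.1 := by rw [hf, tsub_add_cancel_of_le h.2]
      rw [if_pos ⟨hi, rfl, h2⟩, mJ_insert, hf, sgn_mJ, ← Int.cast_smul_eq_zsmul k, smul_eq_mul]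
    · intro y' _ hy'
      rw [if_neg, zero_mul]
      rintro ⟨-, h3, h4⟩
      apply hy'
      refine Prod.ext h3 (toE_inj ?_)
      rw [hf, h4, add_tsub_cancel_right]
    · intro h3
      exact absurd (Finset.mem_univ _) h3
  · rw [if_neg h, eq_comm]
    refine Finset.sum_eq_zero fun y' _ => ?_
    rw [if_neg, zero_mul]
    rintro ⟨h2, h3, h4⟩
    apply h
    refine ⟨fun h5 => h2 (mem_mJ.1 h5), ?_⟩
    rw [h4]
    simp

lemma pr_map (p : ℕ) (q : ℤ) : (Cst k 3 p q).map (pr k) = Cb k p q := by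
  apply le_antisymm
  · rintro _ ⟨ω, hω, rfl⟩
    intro y hy
    obtain ⟨h1, h2, -⟩ := hω _ _ hy
    rw [mJ_card] at h1
    exact ⟨h1, h2⟩
  · intro τ hτ
    let ω : Co k := fun J e => if h : Reg 3 J e then τ (Reg_surj h).choose else 0
    have hω : pr k ω = τ := by
      funext y
      rw [pr_apply]
      change (if h : Reg 3 (mJ y.1) (toE y.2) then τ (Reg_surj h).choose else 0) = _
      rw [dif_pos (Reg_mJ _ _)]
      obtain ⟨h1, h2⟩ := (Reg_surj (Reg_mJ y.1 y.2)).choose_spec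
      congr 1
      exact Prod.ext (mJ_inj h1) (toE_inj h2)
    refine ⟨ω, ?_, hω⟩
    intro J e hne
    have hR : Reg 3 J e := by
      by_contra h
      apply hne
      exact dif_neg h
    obtain ⟨y, hy1, hy2⟩ := Reg_surj hR
    have h3 : ω J e = τ y := by
      rw [← hω, pr_apply, hy1, hy2]
    rw [h3] at hne
    obtain ⟨h4, h5⟩ := hτ y hne
    rw [← hy1, ← hy2, mJ_card]
    exact ⟨h4, h5, Reg_mJ _ _⟩

lemma pr_inj (p : ℕ) (q : ℤ) (ω : Co k) (hω : ω ∈ Cst k 3 p q) (h : pr k ω = 0) : ω = 0 := by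
  funext J e
  by_contra hne
  obtain ⟨y, hy1, hy2⟩ := Reg_surj (hω J e hne).2.2
  have := congrFun h y
  rw [pr_apply, hy1, hy2] at this
  exact hne this

theorem hd_fin [CharZero k] (p : ℕ) (q : ℤ) :
    hd (Dst k 3) (Cst k 3) p q = hd (Am k).mulVecLin (Cb k) p q := by
  refine hd_eq _ _ _ _ (pr k) (fun p q ω _ => pr_D ω) pr_map (fun q ω h => Dst_zero k 3 q ω h)
    (fun p q ω h => Dst_mem k 3 p q ω h) (Dst_Dst k 3) ?_ p q
  intro p q ω hω _ h
  refine ⟨0, Submodule.zero_mem _, map_zero _, ?_⟩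
  rw [pr_inj p q ω hω h, map_zero]

lemma Am_mem (p : ℕ) (q : ℤ) (ω : Yb → k) (h : ω ∈ Cb k (p + 1) q) :
    (Am k).mulVecLin ω ∈ Cb k p (q + 1) := by
  rw [← pr_map] at h
  obtain ⟨θ, hθ, rfl⟩ := h
  rw [← pr_D, ← pr_map]
  exact ⟨_, Dst_mem k 3 p q θ hθ, rfl⟩

lemma Am_Am [CharZero k] (p : ℕ) (q : ℤ) (ω : Yb → k) (h : ω ∈ Cb k p q) :
    (Am k).mulVecLin ((Am k).mulVecLin ω) = 0 := by
  rw [← pr_map] at h
  obtain ⟨θ, hθ, rfl⟩ := h
  rw [← pr_D, ← pr_D, Dst_Dst, map_zero]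

end VerBS
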