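import Pool.Agent.Lib.MP_86fd08_ag.Stage

/-! `K_{0,q} = 0` for `q ≥ 1` and `K_{1,1} = 0`. -/

namespace VerBS

open Classical

variable {k : Type*} [Field k]

/-- basis element -/
noncomputable def dl (k : Type*) [Field k] (J : Finset (Var 5)) (e : Fin 3 →₀ ℕ) : Co k :=
  fun J' e' => if J' = J ∧ e' = e then 1 else 0

lemma dl_apply (J J' : Finset (Var 5)) (e e' : Fin 3 →₀ ℕ) :
    dl k J e J' e' = if J' = J ∧ e' = e then 1 else 0 := rfl

/-- exponents of degree `n` -/
noncomputable def Fd (n : ℕ) : Finset (Fin 3 →₀ ℕ) := (Finsupp.finite_of_degree_eq n).toFinset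

lemma mem_Fd {n : ℕ} {e : Fin 3 →₀ ℕ} : e ∈ Fd n ↔ e.degree = n := by simp [Fd]

lemma dl_mem (J : Finset (Var 5)) (e : Fin 3 →₀ ℕ) (q : ℤ)
    (h : ((e.degree : ℕ) : ℤ) = 1 + 5 * q) : dl k J e ∈ Cst k 0 J.card q := by
  intro J' e' hne
  rw [dl_apply] at hne
  have h1 : J' = J ∧ e' = e := by
    by_contra h1
    rw [if_neg h1] at hne
    exact hne rfl
  rw [h1.1, h1.2]
  exact ⟨rfl, h, Reg_zero _ _⟩

lemma D_single (i : Var 5) (e : Fin 3 →₀ ℕ) :
    Dst k 0 (dl k {i} e) = dl k ∅ (e + ex i) := by
  funext J e'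
  rw [Dst_apply, if_pos (Reg_zero _ _), kd_sh_apply, dl_apply]
  by_cases hJ : J = ∅
  · subst hJ
    rw [Finset.sum_eq_single i]
    · by_cases h : ex i ≤ e'
      · rw [if_pos ⟨Finset.notMem_empty _, h⟩, sgn_empty, one_smul, dl_apply]
        by_cases h1 : e' = e + ex i
        · subst h1
          simp
        · rw [if_neg, if_neg (fun h2 => h1 h2.2)]
          rintro ⟨-, h2⟩
          apply h1
          rw [← h2, tsub_add_cancel_of_le h]
      · rw [if_neg (fun h1 => h h1.2), if_neg]
        rintro ⟨-, rfl⟩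
        exact h (by simp)
    · intro j _ hj
      by_cases h : j ∉ (∅ : Finset (Var 5)) ∧ ex j ≤ e'
      · rw [if_pos h, dl_apply, if_neg, smul_zero]
        rintro ⟨h1, -⟩
        have : j ∈ ({i} : Finset (Var 5)) := by rw [← h1]; exact Finset.mem_insert_self _ _
        exact hj (Finset.mem_singleton.1 this)
      · rw [if_neg h]
    · intro h
      exact absurd (Finset.mem_univ _) h
  · rw [if_neg (fun h => hJ h.1)]
    refine Finset.sum_eq_zero fun j _ => ?_
    by_cases h : j ∉ J ∧ ex j ≤ e'
    · rw [if_pos h, dl_apply, if_neg, smul_zero]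
      rintro ⟨h1, -⟩
      obtain ⟨x, hx⟩ := Finset.nonempty_iff_ne_empty.2 hJ
      have h2 : j ∈ ({i} : Finset (Var 5)) := by rw [← h1]; exact Finset.mem_insert_self _ _
      have h3 : x ∈ ({i} : Finset (Var 5)) := by rw [← h1]; exact Finset.mem_insert_of_mem hx
      rw [Finset.mem_singleton] at h2 h3
      apply h.1
      rw [h2, ← h3]
      exact hx
    · rw [if_neg h]

lemma D_pair (i j : Var 5) (hij : i ≠ j) (e : Fin 3 →₀ ℕ) :
    Dst k 0 (dl k {i, j} e) =
      sgn {j} i • dl k {j} (e + ex i) + sgn {i} j • dl k {i} (e + ex j) := by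
  have key : ∀ (J : Finset (Var 5)) (x : Var 5) (e' : Fin 3 →₀ ℕ), x ∉ J → ex x ≤ e' →
      dl k {i, j} e (insert x J) (e' - ex x) =
        if (x = i ∧ J = {j} ∨ x = j ∧ J = {i}) ∧ e' = e + ex x then 1 else 0 := by
    intro J x e' hx hle
    rw [dl_apply]
    congr 1
    apply propext
    have h1 : e' - ex x = e ↔ e' = e + ex x := tsub_eq_iff_eq_add_of_le hle
    rw [h1]
    refine and_congr_left fun _ => ?_
    constructor
    · intro h
      have hx' : x ∈ ({i, j} : Finset (Var 5)) := by rw [← h]; exact Finset.mem_insert_self _ _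
      rw [Finset.mem_insert, Finset.mem_singleton] at hx'
      rcases hx' with rfl | rfl
      · left
        refine ⟨rfl, ?_⟩
        have := congrArg (fun S => S.erase x) h
        simp only [Finset.erase_insert hx] at this
        rw [this]
        exact Finset.erase_insert (by simp [hij])
      · right
        refine ⟨rfl, ?_⟩
        have := congrArg (fun S => S.erase x) h
        simp only [Finset.erase_insert hx] at this
        rw [this, Finset.pair_comm]
        exact Finset.erase_insert (by simp [hij.symm])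
    · rintro (⟨rfl, rfl⟩ | ⟨rfl, rfl⟩)
      · rfl
      · exact Finset.pair_comm _ _
  funext J e'
  rw [Dst_apply, if_pos (Reg_zero _ _), kd_sh_apply, Pi.add_apply, Pi.add_apply, Pi.smul_apply,
    Pi.smul_apply, Pi.smul_apply, Pi.smul_apply, dl_apply, dl_apply]
  have h1 : ∀ x : Var 5, (if x ∉ J ∧ ex x ≤ e' then
      sgn J x • dl k {i, j} e (insert x J) (e' - ex x) else 0) =
      (if x = i then sgn {j} i • (if J = {j} ∧ e' = e + ex i then (1 : k) else 0) else 0) +
      (if x = j then sgn {i} j • (if J = {i} ∧ e' = e + ex j then (1 : k) else 0) else 0) := by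
    intro x
    by_cases hx : x ∉ J ∧ ex x ≤ e'
    · rw [if_pos hx, key J x e' hx.1 hx.2]
      by_cases hxi : x = i
      · subst hxi
        rw [if_pos rfl, if_neg hij, add_zero]
        by_cases hJ : J = {j}
        · subst hJ; simp [hij]
        · simp [hJ, hij]
      · rw [if_neg hxi, zero_add]
        by_cases hxj : x = j
        · subst hxj
          rw [if_pos rfl]
          by_cases hJ : J = {i}
          · subst hJ; simp [hij.symm]
          · simp [hJ, hij.symm]
        · rw [if_neg hxj]
          simp [hxi, hxj]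
    · rw [if_neg hx]
      by_cases hxi : x = i
      · subst hxi
        rw [if_pos rfl, if_neg hij, add_zero, if_neg, smul_zero]
        rintro ⟨rfl, rfl⟩
        apply hx
        simp [hij]
      · rw [if_neg hxi, zero_add]
        by_cases hxj : x = j
        · subst hxj
          rw [if_pos rfl, if_neg, smul_zero]
          rintro ⟨rfl, rfl⟩
          apply hx
          simp [hij.symm]
        · rw [if_neg hxj]
  rw [Finset.sum_congr rfl fun x _ => h1 x, Finset.sum_add_distrib]
  simp

lemma sgn_pair {i j : Var 5} (hij : i ≠ j) : sgn {i} j = - sgn {j} i := by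
  have h1 := sgn_insert (J := (∅ : Finset (Var 5))) (i := i) (j := j) (Finset.notMem_empty _)
  have h2 := sgn_insert (J := (∅ : Finset (Var 5))) (i := j) (j := i) (Finset.notMem_empty _)
  have e1 : sgn {i} j = if i < j then -1 else 1 := by
    rw [← sgn_empty j]; exact h1
  have e2 : sgn {j} i = if j < i then -1 else 1 := by
    rw [← sgn_empty i]; exact h2
  rw [e1, e2]
  rcases lt_or_gt_of_ne hij with h | h
  · rw [if_pos h, if_neg (not_lt.2 h.le)]
  · rw [if_neg (not_lt.2 h.le), if_pos h]; rfl

lemma sum_dl (p : ℕ) (q : ℤ) (n : ℕ) (hn : (n : ℤ) = 1 + 5 * q) (ω : Co k)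
    (hω : ω ∈ Cst k 0 p q) :
    ω = ∑ J ∈ Finset.univ.powersetCard p, ∑ e ∈ Fd n, ω J e • dl k J e := by
  funext J e
  rw [Finset.sum_apply, Finset.sum_apply]
  simp only [Finset.sum_apply, Pi.smul_apply, dl_apply, smul_eq_mul, mul_ite, mul_one, mul_zero]
  by_cases h : ω J e = 0
  · rw [h, eq_comm]
    refine Finset.sum_eq_zero fun J' _ => Finset.sum_eq_zero fun e' _ => ?_
    split_ifs with h1
    · rw [← h1.1, ← h1.2, h]
    · rfl
  · obtain ⟨h1, h2, -⟩ := hω J e h
    rw [Finset.sum_eq_single J, Finset.sum_eq_single e]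
    · rw [if_pos ⟨rfl, rfl⟩]
    · intro e' _ he'
      rw [if_neg (fun h => he' h.2.symm)]
    · intro h3
      exact absurd (mem_Fd.2 (by omega)) h3
    · intro J' _ hJ'
      refine Finset.sum_eq_zero fun e' _ => ?_
      rw [if_neg (fun h => hJ' h.1.symm)]
    · intro h3
      exact absurd (Finset.mem_powersetCard_univ.2 h1) h3

lemma exists_var {e : Fin 3 →₀ ℕ} (h : 5 ≤ e.degree) : ∃ i : Var 5, ex i ≤ e := by
  obtain ⟨g, hg, hd⟩ := Finsupp.exists_le_degree_eq e 5 h
  exact ⟨⟨toLex g, hd⟩, hg⟩

lemma hd_zero_of_le {T : Type*} [AddCommGroup T] [Module k T] (D : T →ₗ[k] T)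
    (C : ℕ → ℤ → Submodule k T) (p : ℕ) (q : ℤ)
    (h : ∀ ω ∈ C p q, D ω = 0 → ω ∈ (C (p + 1) (q - 1)).map D) : hd D C p q = 0 := by
  unfold hd
  have h1 : ((C (p + 1) (q - 1)).map D).submoduleOf (C p q ⊓ LinearMap.ker D) = ⊤ := by
    rw [eq_top_iff]
    rintro ⟨ω, h2, h3⟩ -
    exact h ω h2 h3
  rw [h1]
  have : Subsingleton (↥(C p q ⊓ LinearMap.ker D) ⧸ (⊤ : Submodule k ↥(C p q ⊓ LinearMap.ker D))) :=
    Submodule.Quotient.subsingleton_iff.2 rfl
  exact Module.finrank_zero_of_subsingleton

theorem hd_zero_zero (q : ℤ) (hq : 1 ≤ q) : hd (Dst k 0) (Cst k 0) 0 q = 0 := by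
  apply hd_zero_of_le
  intro ω hω _
  obtain ⟨n, hn⟩ : ∃ n : ℕ, (n : ℤ) = 1 + 5 * q := ⟨(1 + 5 * q).toNat, by omega⟩
  rw [sum_dl 0 q n hn ω hω]
  refine Submodule.sum_mem _ fun J hJ => Submodule.sum_mem _ fun e he => ?_
  refine Submodule.smul_mem _ _ ?_
  rw [Finset.mem_powersetCard_univ, Finset.card_eq_zero] at hJ
  subst hJ
  rw [mem_Fd] at he
  obtain ⟨i, hi⟩ := exists_var (e := e) (by omega)
  refine ⟨dl k {i} (e - ex i), ?_, ?_⟩
  · have h1 := dl_mem (k := k) {i} (e - ex i) (q - 1) (by
      have h5 : (e - ex i).degree + (ex i).degree = e.degree := by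
        rw [← map_add, tsub_add_cancel_of_le hi]
      rw [ex_degree] at h5
      omega)
    rwa [Finset.card_singleton] at h1
  · rw [D_single, tsub_add_cancel_of_le hi]

/-- the boundaries in bidegree `(1, 1)` -/
noncomputable def BB (k : Type*) [Field k] : Submodule k (Co k) := (Cst k 0 2 0).map (Dst k 0)

lemma BB_swap (i j : Var 5) (e : Fin 3 →₀ ℕ) (he : e.degree = 1) :
    dl k {j} (e + ex i) - dl k {i} (e + ex j) ∈ BB k := by
  by_cases hij : i = j
  · subst hij
    rw [sub_self]
    exact Submodule.zero_mem _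
  · have h1 : dl k {i, j} e ∈ Cst k 0 2 0 := by
      have h2 := dl_mem (k := k) {i, j} e 0 (by rw [he]; simp)
      rwa [Finset.card_pair hij] at h2
    have h3 : sgn {j} i • Dst k 0 (dl k {i, j} e) ∈ BB k :=
      (BB k).smul_mem' (sgn {j} i : k) ⟨_, h1, rfl⟩ |> fun h => by
        rw [← Int.cast_smul_eq_zsmul k]
        exact h
    rw [D_pair i j hij, smul_add, smul_smul, smul_smul, sgn_mul_self, sgn_pair hij, mul_neg,
      sgn_mul_self, one_smul, neg_smul, one_smul, ← sub_eq_add_neg] at h3
    exact h3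

lemma BB_unit (j : Var 5) (e : Fin 3 →₀ ℕ) (he : e.degree = 6) (a c : Fin 3) (j' : Var 5)
    (ha : 1 ≤ e a) (hj' : ex j' + Finsupp.single c 1 = ex j + Finsupp.single a 1)
    (e' : Fin 3 →₀ ℕ) (he' : e' + Finsupp.single a 1 = e + Finsupp.single c 1) :
    dl k {j} e - dl k {j'} e' ∈ BB k := by
  have h1 : Finsupp.single a 1 ≤ e := by rwa [Finsupp.single_le_iff]
  have h2 : (e - Finsupp.single a 1) + Finsupp.single a 1 = e := tsub_add_cancel_of_le h1
  have h3 : (e - Finsupp.single a 1).degree = 5 := by
    have := congrArg Finsupp.degree h2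
    rw [map_add, Finsupp.degree_single, he] at this
    omega
  let i1 : Var 5 := ⟨toLex (e - Finsupp.single a 1), h3⟩
  have hi1 : ex i1 = e - Finsupp.single a 1 := rfl
  have h4 : Finsupp.single a 1 + ex i1 = e := by rw [hi1, add_comm]; exact h2
  have h5 : Finsupp.single c 1 + ex i1 = e' := by
    have : Finsupp.single c 1 + ex i1 + Finsupp.single a 1 = e' + Finsupp.single a 1 := by
      rw [he', ← h4]; abel
    exact add_right_cancel this
  have h6 := BB_swap (k := k) i1 j (Finsupp.single a 1) (Finsupp.degree_single _ _)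
  have h7 := BB_swap (k := k) j' i1 (Finsupp.single c 1) (Finsupp.degree_single _ _)
  rw [h4] at h6
  rw [h5, add_comm (Finsupp.single c 1) (ex j'), hj', add_comm (ex j) (Finsupp.single a 1)] at h7
  have h8 := Submodule.add_mem _ h6 h7
  rwa [sub_add_sub_cancel] at h8

lemma BB_all : ∀ (n : ℕ) (j j' : Var 5) (e e' : Fin 3 →₀ ℕ), e.degree = 6 → e'.degree = 6 →
    ex j + e = ex j' + e' → ∑ a, (ex j a - ex j' a) = n → dl k {j} e - dl k {j'} e' ∈ BB k := by
  intro n
  induction n with
  | zero =>
    intro j j' e e' _ _ h hn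
    have h1 : ∀ a, ex j a ≤ ex j' a := by
      intro a
      have := (Finset.sum_eq_zero_iff.1 hn) a (Finset.mem_univ _)
      omega
    have h2 : ex j = ex j' := by
      have h3 := ex_degree j
      have h4 := ex_degree j'
      rw [Finsupp.degree_eq_sum, Fin.sum_univ_three] at h3 h4
      have := h1 0
      have := h1 1
      have := h1 2
      refine Finsupp.ext fun a => ?_
      fin_cases a
      · change ex j 0 = ex j' 0; omega
      · change ex j 1 = ex j' 1; omega
      · change ex j 2 = ex j' 2; omega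
    have h3 : j = j' := Subtype.ext h2
    subst h3
    have h4 : e = e' := add_left_cancel h
    subst h4
    rw [sub_self]
    exact Submodule.zero_mem _
  | succ n ih =>
    intro j j' e e' he he' h hn
    have d1 := ex_degree j
    have d2 := ex_degree j'
    rw [Finsupp.degree_eq_sum, Fin.sum_univ_three] at d1 d2
    rw [Fin.sum_univ_three] at hn
    have hpt : ∀ a, ex j a + e a = ex j' a + e' a := by
      intro a
      have := DFunLike.congr_fun h a
      simpa using this
    obtain ⟨c, hc⟩ : ∃ c : Fin 3, ex j' c < ex j c := by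
      by_contra hcon
      push Not at hcon
      have := hcon 0
      have := hcon 1
      have := hcon 2
      omega
    obtain ⟨a, ha⟩ : ∃ a : Fin 3, ex j a < ex j' a := by
      by_contra hcon
      push Not at hcon
      have := hcon 0
      have := hcon 1
      have := hcon 2
      omega
    have hca : c ≠ a := by
      rintro rfl
      omega
    have h1 : Finsupp.single c 1 ≤ ex j + Finsupp.single a 1 := by
      rw [Finsupp.single_le_iff, Finsupp.add_apply]
      omega
    have h2 : (ex j + Finsupp.single a 1 - Finsupp.single c 1) + Finsupp.single c 1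
        = ex j + Finsupp.single a 1 := tsub_add_cancel_of_le h1
    have h3 : (ex j + Finsupp.single a 1 - Finsupp.single c 1).degree = 5 := by
      have := congrArg Finsupp.degree h2
      rw [map_add, map_add, Finsupp.degree_single, Finsupp.degree_single, ex_degree] at this
      omega
    let j1 : Var 5 := ⟨toLex (ex j + Finsupp.single a 1 - Finsupp.single c 1), h3⟩
    have hj1 : ex j1 + Finsupp.single c 1 = ex j + Finsupp.single a 1 := h2
    have hea : 1 ≤ e a := by
      have := hpt a
      omega
    have h4 : Finsupp.single a 1 ≤ e + Finsupp.single c 1 := by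
      rw [Finsupp.single_le_iff, Finsupp.add_apply]
      omega
    set e1 := e + Finsupp.single c 1 - Finsupp.single a 1 with he1
    have h5 : e1 + Finsupp.single a 1 = e + Finsupp.single c 1 := tsub_add_cancel_of_le h4
    have h6 : e1.degree = 6 := by
      have := congrArg Finsupp.degree h5
      rw [map_add, map_add, Finsupp.degree_single, Finsupp.degree_single, he] at this
      omega
    have h7 := BB_unit (k := k) j e he a c j1 hea hj1 e1 h5
    have h8 : ex j1 + e1 = ex j' + e' := by
      rw [← h]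
      have : ex j1 + e1 + (Finsupp.single c 1 + Finsupp.single a 1) =
          ex j + e + (Finsupp.single c 1 + Finsupp.single a 1) := by
        calc ex j1 + e1 + (Finsupp.single c 1 + Finsupp.single a 1)
            = (ex j1 + Finsupp.single c 1) + (e1 + Finsupp.single a 1) := by abel
          _ = (ex j + Finsupp.single a 1) + (e + Finsupp.single c 1) := by rw [hj1, h5]
          _ = _ := by abel
      exact add_right_cancel this
    have h9 : ∑ x, (ex j1 x - ex j' x) = n := by
      have hx : ∀ x, ex j1 x + (Finsupp.single c 1 : Fin 3 →₀ ℕ) x =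
          ex j x + (Finsupp.single a 1 : Fin 3 →₀ ℕ) x := by
        intro x
        have := DFunLike.congr_fun hj1 x
        simpa using this
      have hxc := hx c
      have hxa := hx a
      rw [Finsupp.single_eq_same, Finsupp.single_eq_of_ne hca] at hxc
      rw [Finsupp.single_eq_same, Finsupp.single_eq_of_ne hca.symm] at hxa
      rw [Fin.sum_univ_three]
      have x0 := hx 0
      have x1 := hx 1
      have x2 := hx 2
      fin_cases c <;> fin_cases a <;> simp at hca hxc hxa hc ha x0 x1 x2 ⊢ <;> omega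
    have h10 := ih j1 j' e1 e' h6 he' h8 h9
    have h11 := Submodule.add_mem _ h7 h10
    rwa [sub_add_sub_cancel] at h11

theorem hd_one_one : hd (Dst k 0) (Cst k 0) 1 1 = 0 := by
  apply hd_zero_of_le
  intro ζ hζ hD
  change ζ ∈ BB k
  have hcyc : ∀ g : Fin 3 →₀ ℕ, ∑ j : Var 5, (if ex j ≤ g then ζ {j} (g - ex j) else 0) = 0 := by
    intro g
    have h1 := congrFun (congrFun hD ∅) g
    rw [Dst_apply, if_pos (Reg_zero _ _), kd_sh_apply] at h1
    rw [Pi.zero_apply, Pi.zero_apply] at h1
    refine Eq.trans (Finset.sum_congr rfl fun j _ => ?_) h1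
    by_cases h : ex j ≤ g
    · rw [if_pos h, if_pos ⟨Finset.notMem_empty _, h⟩, sgn_empty, one_smul]
      rfl
    · rw [if_neg h, if_neg (fun h2 => h h2.2)]
  have hrep : ∀ g : Fin 3 →₀ ℕ, ∃ i : Var 5, g.degree = 11 → ex i ≤ g := by
    intro g
    by_cases h : g.degree = 11
    · obtain ⟨i, hi⟩ := exists_var (e := g) (by omega)
      exact ⟨i, fun _ => hi⟩
    · exact ⟨uv 0, fun h' => absurd h' h⟩
  choose iv hiv using hrep
  have hsum : ζ = ∑ j : Var 5, ∑ e ∈ Fd 6, ζ {j} e • dl k {j} e := by
    conv_lhs => rw [sum_dl 1 1 6 (by norm_num) ζ hζ]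
    refine Finset.sum_bij' (fun J hJ => (Finset.card_eq_one.1
      (Finset.mem_powersetCard_univ.1 hJ)).choose) (fun j _ => {j}) ?_ ?_ ?_ ?_ ?_
    · intro J hJ; exact Finset.mem_univ _
    · intro j _
      exact Finset.mem_powersetCard_univ.2 (Finset.card_singleton _)
    · intro J hJ
      exact (Finset.card_eq_one.1 (Finset.mem_powersetCard_univ.1 hJ)).choose_spec.symm
    · intro j hj
      have hJ : ({j} : Finset (Var 5)) ∈ Finset.univ.powersetCard 1 :=
        Finset.mem_powersetCard_univ.2 (Finset.card_singleton _)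
      have := (Finset.card_eq_one.1 (Finset.mem_powersetCard_univ.1 hJ)).choose_spec
      exact (Finset.singleton_injective this).symm
    · intro J hJ
      have := (Finset.card_eq_one.1 (Finset.mem_powersetCard_univ.1 hJ)).choose_spec
      rw [← this]
  set R : (Fin 3 →₀ ℕ) → Co k := fun g => dl k {iv g} (g - ex (iv g)) with hR
  have hzero : ∑ j : Var 5, ∑ e ∈ Fd 6, ζ {j} e • R (ex j + e) = 0 := by
    have h1 : ∀ j : Var 5, ∑ e ∈ Fd 6, ζ {j} e • R (ex j + e) =
        ∑ g ∈ Fd 11, (if ex j ≤ g then ζ {j} (g - ex j) else 0) • R g := by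
      intro j
      have h2 : ∑ g ∈ Fd 11, (if ex j ≤ g then ζ {j} (g - ex j) else 0) • R g =
          ∑ g ∈ (Fd 11).filter (fun g => ex j ≤ g), ζ {j} (g - ex j) • R g := by
        rw [Finset.sum_filter]
        refine Finset.sum_congr rfl fun g _ => ?_
        split_ifs <;> simp
      rw [h2]
      refine Finset.sum_bij' (fun e _ => ex j + e) (fun g _ => g - ex j) ?_ ?_ ?_ ?_ ?_
      · intro e he
        rw [mem_Fd] at he
        rw [Finset.mem_filter, mem_Fd, map_add, ex_degree, he]
        exact ⟨rfl, by simp⟩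
      · intro g hg
        rw [Finset.mem_filter, mem_Fd] at hg
        rw [mem_Fd]
        have h5 : (g - ex j).degree + (ex j).degree = g.degree := by
          rw [← map_add, tsub_add_cancel_of_le hg.2]
        rw [ex_degree] at h5
        omega
      · intro e he
        exact add_tsub_cancel_left _ _
      · intro g hg
        rw [Finset.mem_filter] at hg
        exact add_tsub_cancel_of_le hg.2
      · intro e he
        rw [add_tsub_cancel_left]
    rw [Finset.sum_congr rfl fun j _ => h1 j, Finset.sum_comm]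
    refine Finset.sum_eq_zero fun g _ => ?_
    rw [← Finset.sum_smul, hcyc g, zero_smul]
  have hfin : ζ = ∑ j : Var 5, ∑ e ∈ Fd 6, ζ {j} e • (dl k {j} e - R (ex j + e)) := by
    simp only [smul_sub, Finset.sum_sub_distrib]
    rw [hzero, sub_zero]
    exact hsum
  rw [hfin]
  refine Submodule.sum_mem _ fun j _ => Submodule.sum_mem _ fun e he => ?_
  refine Submodule.smul_mem _ _ ?_
  rw [mem_Fd] at he
  have hg : (ex j + e).degree = 11 := by rw [map_add, ex_degree, he]
  have hle := hiv _ hg
  refine BB_all _ j (iv (ex j + e)) e _ he ?_ ?_ rfl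
  · have h5 : (ex j + e - ex (iv (ex j + e))).degree + (ex (iv (ex j + e))).degree
        = (ex j + e).degree := by
      rw [← map_add, tsub_add_cancel_of_le hle]
    rw [ex_degree] at h5
    omega
  · rw [add_comm (ex (iv (ex j + e))), tsub_add_cancel_of_le hle]

end VerBS
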