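import Pool.Agent.Lib.MP_86fd08_ag.Sign

/-! Homology dimensions and comparison of complexes. -/

namespace VerBS

variable {k : Type*} [Field k] {T T' : Type*} [AddCommGroup T] [Module k T] [AddCommGroup T']
  [Module k T']

/-- Dimension of the homology of a bigraded complex at `(p, q)`. -/
noncomputable def hd (D : T →ₗ[k] T) (C : ℕ → ℤ → Submodule k T) (p : ℕ) (q : ℤ) : ℕ :=
  Module.finrank k (↥(C p q ⊓ LinearMap.ker D) ⧸
    ((C (p + 1) (q - 1)).map D).submoduleOf (C p q ⊓ LinearMap.ker D))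

lemma betti_eq (k : Type*) [Field k] (b : ℤ) (d p : ℕ) (j : ℤ) :
    betti k b d p j = hd (kos k d) (part k b d) p (j - p) := rfl

/-- Comparison along a map which is onto in each bidegree and has acyclic kernel. -/
theorem hd_eq (D : T →ₗ[k] T) (D' : T' →ₗ[k] T') (C : ℕ → ℤ → Submodule k T)
    (C' : ℕ → ℤ → Submodule k T') (π : T →ₗ[k] T')
    (hπ : ∀ p q, ∀ ω ∈ C p q, π (D ω) = D' (π ω))
    (hmap : ∀ p q, (C p q).map π = C' p q)
    (hD0 : ∀ q, ∀ ω ∈ C 0 q, D ω = 0)
    (hD : ∀ p q, ∀ ω ∈ C (p + 1) q, D ω ∈ C p (q + 1))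
    (hDD : ∀ ω, D (D ω) = 0)
    (hac : ∀ p q, ∀ ω ∈ C p q, D ω = 0 → π ω = 0 → ∃ η ∈ C (p + 1) (q - 1), π η = 0 ∧ D η = ω)
    (p : ℕ) (q : ℤ) : hd D C p q = hd D' C' p q := by
  set Z := C p q ⊓ LinearMap.ker D with hZ
  set Z' := C' p q ⊓ LinearMap.ker D' with hZ'
  set B' := (C' (p + 1) (q - 1)).map D' with hB'
  set B := (C (p + 1) (q - 1)).map D with hB
  have hmem : ∀ p q, ∀ ω ∈ C p q, π ω ∈ C' p q := fun p q ω h => by
    rw [← hmap]; exact Submodule.mem_map_of_mem h
  have hZZ' : ∀ z ∈ Z, π z ∈ Z' := by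
    intro z hz
    refine ⟨hmem p q z hz.1, ?_⟩
    change D' (π z) = 0
    rw [← hπ p q z hz.1, LinearMap.mem_ker.1 hz.2, map_zero]
  let f : Z →ₗ[k] Z' := π.restrict hZZ'
  let g : Z →ₗ[k] (Z' ⧸ B'.submoduleOf Z') := (B'.submoduleOf Z').mkQ ∘ₗ f
  have hsurj : Function.Surjective g := by
    intro y
    obtain ⟨z', rfl⟩ := Submodule.mkQ_surjective _ y
    obtain ⟨z', hz'⟩ := z'
    have h1 : z' ∈ (C p q).map π := by rw [hmap]; exact hz'.1
    obtain ⟨ω, hω, rfl⟩ := h1
    have h2 : π (D ω) = 0 := by rw [hπ p q ω hω]; exact LinearMap.mem_ker.1 hz'.2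
    have h3 : ∃ η ∈ C p q, π η = 0 ∧ D η = D ω := by
      cases p with
      | zero => exact ⟨0, Submodule.zero_mem _, map_zero _, by rw [hD0 q ω hω, map_zero]⟩
      | succ p' =>
        obtain ⟨η, h4, h5, h6⟩ := hac p' (q + 1) (D ω) (hD p' q ω hω) (hDD ω) h2
        exact ⟨η, by simpa using h4, h5, h6⟩
    obtain ⟨η, h4, h5, h6⟩ := h3
    refine ⟨⟨ω - η, Submodule.sub_mem _ hω h4, ?_⟩, ?_⟩
    · change D (ω - η) = 0
      rw [map_sub, h6, sub_self]
    · change (B'.submoduleOf Z').mkQ (f _) = _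
      congr 1
      apply Subtype.ext
      change π (ω - η) = π ω
      rw [map_sub, h5, sub_zero]
  have hker : LinearMap.ker g = B.submoduleOf Z := by
    ext ⟨z, hz⟩
    rw [LinearMap.mem_ker]
    change (B'.submoduleOf Z').mkQ (f ⟨z, hz⟩) = 0 ↔ _
    rw [Submodule.mkQ_apply, Submodule.Quotient.mk_eq_zero]
    change π z ∈ B' ↔ z ∈ B
    constructor
    · rintro ⟨η', hη', h1⟩
      have h2 : η' ∈ (C (p + 1) (q - 1)).map π := by rw [hmap]; exact hη'
      obtain ⟨η, hη, rfl⟩ := h2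
      have h3 : π (z - D η) = 0 := by
        rw [map_sub, hπ _ _ η hη, h1, sub_self]
      have h4 : z - D η ∈ C p q := by
        refine Submodule.sub_mem _ hz.1 ?_
        have := hD p (q - 1) η hη
        simpa using this
      have h5 : D (z - D η) = 0 := by rw [map_sub, hDD, LinearMap.mem_ker.1 hz.2, sub_zero]
      obtain ⟨θ, h6, -, h7⟩ := hac p q _ h4 h5 h3
      exact ⟨η + θ, Submodule.add_mem _ hη h6, by rw [map_add, h7]; abel⟩
    · rintro ⟨η, hη, rfl⟩
      exact ⟨π η, hmem _ _ η hη, (hπ _ _ η hη).symm⟩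
  exact ((Submodule.quotEquivOfEq _ _ hker.symm).trans
    (g.quotKerEquivOfSurjective hsurj)).finrank_eq

/-- Rank-nullity for the homology of a bigraded complex of finite dimensional spaces. -/
theorem hd_add (D : T →ₗ[k] T) (C : ℕ → ℤ → Submodule k T)
    [∀ p q, FiniteDimensional k (C p q)]
    (hD : ∀ p q, ∀ ω ∈ C (p + 1) q, D ω ∈ C p (q + 1))
    (hDD : ∀ p q, ∀ ω ∈ C p q, D (D ω) = 0) (p : ℕ) (q : ℤ) :
    hd D C p q + Module.finrank k ((C p q).map D) + Module.finrank k ((C (p + 1) (q - 1)).map D)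
      = Module.finrank k (C p q) := by
  set Z := C p q ⊓ LinearMap.ker D with hZ
  set B := (C (p + 1) (q - 1)).map D with hB
  have : FiniteDimensional k Z := Submodule.finiteDimensional_of_le inf_le_left
  have hBZ : B ≤ Z := by
    rintro _ ⟨η, hη, rfl⟩
    refine ⟨?_, hDD _ _ η hη⟩
    have := hD p (q - 1) η hη
    simpa using this
  have h1 : Module.finrank k (Z ⧸ B.submoduleOf Z) + Module.finrank k B = Module.finrank k Z := by
    have h2 := Submodule.finrank_quotient_add_finrank (B.submoduleOf Z)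
    rw [(Submodule.submoduleOfEquivOfLe hBZ).finrank_eq] at h2
    exact h2
  have h3 : Module.finrank k ((C p q).map D) + Module.finrank k Z = Module.finrank k (C p q) := by
    have h4 := LinearMap.finrank_range_add_finrank_ker (D.domRestrict (C p q))
    have h5 : LinearMap.range (D.domRestrict (C p q)) = (C p q).map D := by
      rw [LinearMap.domRestrict, LinearMap.range_comp, Submodule.range_subtype]
    have h6 : Module.finrank k (LinearMap.ker (D.domRestrict (C p q))) = Module.finrank k Z := by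
      rw [LinearMap.ker_domRestrict]
      have h7 := (Submodule.comap (C p q).subtype (LinearMap.ker D))
      refine LinearEquiv.finrank_eq ?_
      rw [hZ, inf_comm]
      exact ((Submodule.equivSubtypeMap (C p q) (Submodule.comap (C p q).subtype
        (LinearMap.ker D))).trans (LinearEquiv.ofEq _ _ (by
          rw [Submodule.map_comap_subtype, inf_comm])))
    rw [h5, h6] at h4
    exact h4
  have h8 : hd D C p q = Module.finrank k (Z ⧸ B.submoduleOf Z) := rfl
  omega

end VerBS
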