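import Pool.Agent.Lib.MP_86fd08_ag.Fin

/-! Dimensions and the duality of ranks in the finite complex. -/

namespace VerBS

open Classical

variable {k : Type*} [Field k]

lemma deg_toE (e : Bx) : (toE e).degree = ∑ a, (e a : ℕ) := by
  rw [Finsupp.degree_eq_sum]
  rfl

lemma card_Vb : Fintype.card Vb = 18 := by
  have h1 : (Finset.univ.filter (fun e : Bx => ∑ a, (e a : ℕ) = 5)).card = 18 := by
    decide +kernel
  rw [← h1, ← Finset.card_univ]
  symm
  refine Finset.card_bij (fun e he => (⟨⟨toLex (toE e), ?_⟩, ?_⟩ : Vb)) ?_ ?_ ?_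
  · rw [Finset.mem_filter] at he
    change (toE e).degree = 5
    rw [deg_toE]
    exact he.2
  · intro a ha
    have h2 : toE e = Finsupp.single a 5 := congrArg (fun i : Var 5 => ex i) ha
    have := DFunLike.congr_fun h2 a
    rw [toE_apply, Finsupp.single_eq_same] at this
    omega
  · intro e he
    exact Finset.mem_univ _
  · intro e he e' he' h
    exact toE_inj (congrArg (fun i : Vb => ex i.1) h)
  · intro i _
    have h2 : ∀ a, ex i.1 a ≤ 4 := by
      intro a
      by_contra h3
      push Not at h3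
      apply i.2 a
      apply Subtype.ext
      change ex i.1 = Finsupp.single a 5
      have h4 := ex_degree i.1
      have h5 : Finsupp.single a 5 ≤ ex i.1 := by
        rw [Finsupp.single_le_iff]; omega
      have h6 : (ex i.1 - Finsupp.single a 5) + Finsupp.single a 5 = ex i.1 :=
        tsub_add_cancel_of_le h5
      have h7 := congrArg Finsupp.degree h6
      rw [map_add, Finsupp.degree_single, h4] at h7
      have h8 : (ex i.1 - Finsupp.single a 5).degree = 0 := by omega
      rw [Finsupp.degree_eq_zero_iff] at h8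
      rw [← h6, h8, zero_add]
    obtain ⟨f, hf⟩ := toE_surj h2
    refine ⟨f, ?_, ?_⟩
    · rw [Finset.mem_filter, ← deg_toE, hf, ex_degree]
      exact ⟨Finset.mem_univ _, rfl⟩
    · apply Subtype.ext
      apply Subtype.ext
      exact hf

/-- the projection to bidegree `(p, n)` -/
noncomputable def Em (k : Type*) [Field k] (p n : ℕ) : Matrix Yb Yb k :=
  Matrix.diagonal (fun y => if y.1.card = p ∧ (toE y.2).degree = n then 1 else 0)

lemma Em_range (p n : ℕ) (q : ℤ) (hn : (n : ℤ) = 1 + 5 * q) :
    LinearMap.range (Em k p n).mulVecLin = Cb k p q := by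
  apply le_antisymm
  · rintro _ ⟨f, rfl⟩
    intro y hy
    rw [Matrix.mulVecLin_apply, Em, Matrix.mulVec_diagonal] at hy
    by_cases h : y.1.card = p ∧ (toE y.2).degree = n
    · exact ⟨h.1, by rw [h.2, hn]⟩
    · rw [if_neg h, zero_mul] at hy
      exact absurd rfl hy
  · intro ω hω
    refine ⟨ω, ?_⟩
    funext y
    rw [Matrix.mulVecLin_apply, Em, Matrix.mulVec_diagonal]
    by_cases h : ω y = 0
    · rw [h, mul_zero]
    · obtain ⟨h1, h2⟩ := hω y h
      rw [if_pos ⟨h1, by omega⟩, one_mul]

lemma finrank_map (p n : ℕ) (q : ℤ) (hn : (n : ℤ) = 1 + 5 * q) :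
    Module.finrank k ((Cb k p q).map (Am k).mulVecLin) = (Am k * Em k p n).rank := by
  rw [Matrix.rank, Matrix.mulVecLin_mul, LinearMap.range_comp, Em_range p n q hn]

lemma count_box (n : ℕ) : (Finset.univ.filter (fun e : Bx => (toE e).degree = n)).card =
    (Finset.univ.filter (fun e : Bx => ∑ a, (e a : ℕ) = n)).card := by
  congr 1
  ext e
  rw [Finset.mem_filter, Finset.mem_filter, deg_toE]

lemma finrank_Cb (p n : ℕ) (q : ℤ) (hn : (n : ℤ) = 1 + 5 * q) :
    Module.finrank k (Cb k p q) =
      Nat.choose 18 p * (Finset.univ.filter (fun e : Bx => ∑ a, (e a : ℕ) = n)).card := by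
  rw [← Em_range p n q hn]
  change (Em k p n).rank = _
  rw [Em, Matrix.rank_diagonal, Fintype.card_subtype, ← count_box]
  have h1 : (Finset.univ.filter (fun y : Yb =>
      (if y.1.card = p ∧ (toE y.2).degree = n then (1 : k) else 0) ≠ 0)) =
      (Finset.univ.powersetCard p) ×ˢ (Finset.univ.filter (fun e : Bx => (toE e).degree = n)) := by
    ext y
    rw [Finset.mem_filter, Finset.mem_product, Finset.mem_powersetCard_univ, Finset.mem_filter]
    by_cases h : y.1.card = p ∧ (toE y.2).degree = n
    · simp [h]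
    · rw [if_neg h]
      simp only [ne_eq, not_true_eq_false, and_false, Finset.mem_univ, true_and, false_iff]
      exact h
  rw [h1, Finset.card_product, Finset.card_powersetCard, Finset.card_univ, card_Vb]

/-- the duality involution -/
noncomputable def du : Yb ≃ Yb where
  toFun y := (y.1ᶜ, fun a => Fin.rev (y.2 a))
  invFun y := (y.1ᶜ, fun a => Fin.rev (y.2 a))
  left_inv y := by
    refine Prod.ext (compl_compl _) ?_
    funext a
    exact Fin.rev_rev _
  right_inv y := by
    refine Prod.ext (compl_compl _) ?_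
    funext a
    exact Fin.rev_rev _

lemma du_fst (y : Yb) : (du y).1 = y.1ᶜ := rfl

lemma toE_du (y : Yb) (a : Fin 3) : toE (du y).2 a + toE y.2 a = 4 := by
  rw [toE_apply, toE_apply]
  change ((Fin.rev (y.2 a) : Fin 5) : ℕ) + _ = 4
  rw [Fin.val_rev]
  omega

/-- the sign of an index set -/
noncomputable def ep (J : Finset Vb) : ℤ := ∏ j ∈ J, (-1) ^ (Finset.univ.filter (fun l => l < j)).card

lemma ep_sq (J : Finset Vb) : ep J * ep J = 1 := by
  unfold ep
  rw [← Finset.prod_mul_distrib]
  refine Finset.prod_eq_one fun j _ => ?_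
  rw [← pow_add, ← two_mul, pow_mul]
  simp

lemma ep_insert {J : Finset Vb} {i : Vb} (h : i ∉ J) :
    ep (insert i J) = (-1) ^ (Finset.univ.filter (fun l => l < i)).card * ep J := by
  unfold ep
  rw [Finset.prod_insert h]

lemma sgn_compl {J : Finset Vb} {i : Vb} (_h : i ∉ J) :
    sgn J i * sgn (insert i J)ᶜ i = (-1) ^ (Finset.univ.filter (fun l => l < i)).card := by
  unfold sgn
  rw [← pow_add]
  congr 1
  rw [← Finset.card_union_of_disjoint]
  · congr 1
    ext l
    simp only [Finset.mem_union, Finset.mem_filter, Finset.mem_compl, Finset.mem_insert,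
      Finset.mem_univ, true_and, not_or]
    constructor
    · rintro (h1 | h1)
      · exact h1.2
      · exact h1.2
    · intro h1
      by_cases h2 : l ∈ J
      · exact Or.inl ⟨h2, h1⟩
      · exact Or.inr ⟨⟨h1.ne, h2⟩, h1⟩
  · rw [Finset.disjoint_left]
    intro l hl hl'
    rw [Finset.mem_filter] at hl hl'
    rw [Finset.mem_compl, Finset.mem_insert, not_or] at hl'
    exact hl'.1.2 hl.1

lemma Am_du (y y' : Yb) :
    Am k y y' = ((ep y.1 : ℤ) : k) * ((ep y'.1 : ℤ) : k) * Am k (du y') (du y) := by
  unfold Am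
  rw [Finset.mul_sum]
  refine Finset.sum_congr rfl fun i _ => ?_
  have hE : toE y.2 = toE y'.2 + ex i.1 ↔ toE (du y').2 = toE (du y).2 + ex i.1 := by
    constructor
    · intro h
      ext a
      have h1 := DFunLike.congr_fun h a
      rw [Finsupp.add_apply] at h1 ⊢
      have h2 := toE_du y a
      have h3 := toE_du y' a
      omega
    · intro h
      ext a
      have h1 := DFunLike.congr_fun h a
      rw [Finsupp.add_apply] at h1 ⊢
      have h2 := toE_du y a
      have h3 := toE_du y' a
      omega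
  have hJ : (i ∉ y.1 ∧ y'.1 = insert i y.1) ↔ (i ∉ (du y').1 ∧ (du y).1 = insert i (du y').1) := by
    rw [du_fst, du_fst]
    constructor
    · rintro ⟨h1, h2⟩
      refine ⟨?_, ?_⟩
      · rw [Finset.mem_compl, not_not, h2]
        exact Finset.mem_insert_self _ _
      · rw [h2]
        ext l
        rw [Finset.mem_compl, Finset.mem_insert, Finset.mem_compl, Finset.mem_insert, not_or]
        constructor
        · intro h3
          by_cases h4 : l = i
          · exact Or.inl h4
          · exact Or.inr ⟨h4, h3⟩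
        · rintro (h3 | h3)
          · rw [h3]; exact h1
          · exact h3.2
    · rintro ⟨h1, h2⟩
      rw [Finset.mem_compl, not_not] at h1
      have h5 : ∀ l, l ∉ y.1 ↔ (l = i ∨ l ∉ y'.1) := by
        intro l
        have h6 : l ∈ y.1ᶜ ↔ l ∈ insert i y'.1ᶜ := by rw [h2]
        rw [Finset.mem_compl, Finset.mem_insert, Finset.mem_compl] at h6
        exact h6
      refine ⟨(h5 i).2 (Or.inl rfl), ?_⟩
      ext l
      rw [Finset.mem_insert]
      have h6 := h5 l
      constructor
      · intro h7
        by_cases h8 : l = i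
        · exact Or.inl h8
        · right
          by_contra h9
          rcases h6.1 h9 with h10 | h10
          · exact h8 h10
          · exact h10 h7
      · rintro (h7 | h7)
        · rw [h7]; exact h1
        · by_contra h8
          exact (h6.2 (Or.inr h8)) h7
  by_cases h : i ∉ y.1 ∧ y'.1 = insert i y.1 ∧ toE y.2 = toE y'.2 + ex i.1
  · obtain ⟨h1, h2, h3⟩ := h
    have h4 := hJ.1 ⟨h1, h2⟩
    rw [if_pos ⟨h1, h2, h3⟩, if_pos ⟨h4.1, h4.2, hE.1 h3⟩, du_fst, h2]
    rw [← Int.cast_mul, ← Int.cast_mul]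
    congr 1
    have h5 := sgn_compl h1
    have h6 := ep_insert h1
    have h7 := ep_sq y.1
    have h8 := sgn_mul_self (insert i y.1)ᶜ i
    rw [h6, ← h5]
    calc sgn y.1 i = 1 * sgn y.1 i * 1 := by ring
      _ = (ep y.1 * ep y.1) * sgn y.1 i * (sgn (insert i y.1)ᶜ i * sgn (insert i y.1)ᶜ i) := by
          rw [h7, h8]
      _ = _ := by ring
  · rw [if_neg h, if_neg, mul_zero]
    rintro ⟨h1, h2, h3⟩
    apply h
    have h4 := hJ.2 ⟨h1, h2⟩
    exact ⟨h4.1, h4.2, hE.2 h3⟩

lemma Em_comm (p n : ℕ) : Em k p (n + 5) * Am k = Am k * Em k (p + 1) n := by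
  ext y y'
  rw [Em, Em, Matrix.diagonal_mul, Matrix.mul_diagonal]
  by_cases h : Am k y y' = 0
  · rw [h, mul_zero, zero_mul]
  · rw [mul_comm]
    congr 1
    have h1 : ∃ i : Vb, i ∉ y.1 ∧ y'.1 = insert i y.1 ∧ toE y.2 = toE y'.2 + ex i.1 := by
      by_contra hcon
      push Not at hcon
      apply h
      unfold Am
      refine Finset.sum_eq_zero fun i _ => ?_
      rw [if_neg]
      rintro ⟨h1, h2, h3⟩
      exact hcon i h1 h2 h3
    obtain ⟨i, h2, h3, h4⟩ := h1
    have h5 : y'.1.card = y.1.card + 1 := by rw [h3, Finset.card_insert_of_notMem h2]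
    have h6 : (toE y.2).degree = (toE y'.2).degree + 5 := by rw [h4, map_add, ex_degree]
    have h7 : (y.1.card = p ∧ (toE y.2).degree = n + 5) ↔
        (y'.1.card = p + 1 ∧ (toE y'.2).degree = n) := by omega
    simp only [h7]

lemma du_degree (y : Yb) : (toE (du y).2).degree + (toE y.2).degree = 12 := by
  rw [Finsupp.degree_eq_sum, Finsupp.degree_eq_sum, ← Finset.sum_add_distrib,
    Finset.sum_congr rfl fun a _ => toE_du y a]
  simp

lemma du_card (y : Yb) : (du y).1.card + y.1.card = 18 := by
  rw [du_fst, Finset.card_compl, card_Vb]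
  have : y.1.card ≤ Fintype.card Vb := Finset.card_le_univ _
  rw [card_Vb] at this
  omega

lemma Em_du (p : ℕ) (hp : p ≤ 18) : Em k p 11 = (Em k (18 - p) 1).submatrix du du := by
  rw [Em, Em, Matrix.submatrix_diagonal_equiv]
  congr 1
  funext y
  change (if _ then (1 : k) else 0) = (if _ then (1 : k) else 0)
  have h1 := du_degree y
  have h2 := du_card y
  have h3 : (y.1.card = p ∧ (toE y.2).degree = 11) ↔
      ((du y).1.card = 18 - p ∧ (toE (du y).2).degree = 1) := by omega
  simp only [h3]

/-- The duality of ranks. -/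
theorem rank_dual (p : ℕ) (hp : p ≤ 18) :
    (Am k * Em k (p + 1) 6).rank = (Am k * Em k (18 - p) 1).rank := by
  set S : Matrix Yb Yb k := Matrix.diagonal (fun y => ((ep y.1 : ℤ) : k)) with hS
  have hSS : S * S = 1 := by
    rw [hS, Matrix.diagonal_mul_diagonal, ← Matrix.diagonal_one]
    congr 1
    funext y
    rw [← Int.cast_mul, ep_sq, Int.cast_one]
  have hSu : IsUnit S.det := by
    rw [isUnit_iff_exists_inv]
    exact ⟨S.det, by rw [← Matrix.det_mul, hSS, Matrix.det_one]⟩
  have hT : (Am k).transpose = S * (Am k).submatrix du du * S := by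
    ext y y'
    rw [Matrix.transpose_apply, hS, Matrix.mul_diagonal, Matrix.diagonal_mul,
      Matrix.submatrix_apply, Am_du y' y]
    ring
  have hES : S * Em k p 11 = Em k p 11 * S := by
    rw [hS, Em, Matrix.diagonal_mul_diagonal, Matrix.diagonal_mul_diagonal]
    congr 1
    funext y
    ring
  have hEt : (Em k p 11).transpose = Em k p 11 := by rw [Em, Matrix.diagonal_transpose]
  rw [← Em_comm p 6, ← Matrix.rank_transpose, Matrix.transpose_mul, hEt, hT, mul_assoc, hES,
    ← mul_assoc, Matrix.rank_mul_eq_left_of_isUnit_det _ _ hSu, mul_assoc,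
    Matrix.rank_mul_eq_right_of_isUnit_det _ _ hSu, Em_du p hp, Matrix.submatrix_mul_equiv,
    Matrix.rank_submatrix]

end VerBS
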