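import Pool.Agent.Lib.MP_86fd08_ag.Defs

/-! Signs, contractions and the abstract Koszul differential. -/

namespace VerBS

section Sign

variable {ι : Type*} [LinearOrder ι]

lemma ins_eq {κ : Type*} (i1 i2 : DecidableEq κ) (i : κ) (J : Finset κ) :
    @insert κ (Finset κ) (@Finset.instInsert κ i1) i J =
      @insert κ (Finset κ) (@Finset.instInsert κ i2) i J := by
  rw [Subsingleton.elim i1 i2]

lemma sgn_mul_self (J : Finset ι) (i : ι) : sgn J i * sgn J i = 1 := by
  unfold sgn
  rw [← pow_add, ← two_mul, pow_mul]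
  simp

lemma sgn_empty (i : ι) : sgn (∅ : Finset ι) i = 1 := by simp [sgn]

lemma sgn_insert {J : Finset ι} {i j : ι} (hi : i ∉ J) :
    sgn (insert i J) j = if i < j then - sgn J j else sgn J j := by
  unfold sgn
  rw [Finset.filter_insert]
  split_ifs with h
  · rw [Finset.card_insert_of_notMem (by simp [hi]), pow_succ]; ring
  · rfl

lemma sgn_anti {J : Finset ι} {i j : ι} (hij : i ≠ j) (hi : i ∉ J) (hj : j ∉ J) :
    sgn J i * sgn (insert i J) j = - (sgn J j * sgn (insert j J) i) := by
  rw [sgn_insert hi, sgn_insert hj]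
  rcases lt_or_gt_of_ne hij with h | h
  · rw [if_pos h, if_neg (not_lt.2 h.le)]; ring
  · rw [if_neg (not_lt.2 h.le), if_pos h]; ring

end Sign

section Kd

variable {k : Type*} [Field k] {ι : Type*} [LinearOrder ι] {N : Type*} [AddCommGroup N] [Module k N]

/-- contraction with the `i`-th coordinate. -/
noncomputable def con (k : Type*) [Field k] {ι : Type*} [LinearOrder ι] {N : Type*} [AddCommGroup N]
    [Module k N] (i : ι) : (Finset ι → N) →ₗ[k] (Finset ι → N) where
  toFun ω J := if i ∈ J then 0 else sgn J i • ω (insert i J)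
  map_add' ω ω' := by
    funext J
    simp only [Pi.add_apply]
    split_ifs <;> simp
  map_smul' c ω := by
    funext J
    simp only [Pi.smul_apply, RingHom.id_apply]
    split_ifs
    · simp
    · rw [smul_comm]

lemma con_apply (i : ι) (ω : Finset ι → N) (J : Finset ι) :
    con k i ω J = if i ∈ J then 0 else sgn J i • ω (insert i J) := rfl

lemma con_con (i j : ι) (ω : Finset ι → N) : con k i (con k j ω) = - con k j (con k i ω) := by
  funext J
  simp only [Pi.neg_apply, con_apply, Finset.mem_insert]
  by_cases hi : i ∈ J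
  · simp [hi]
  by_cases hj : j ∈ J
  · simp [hi, hj]
  by_cases hij : i = j
  · subst hij; simp [hi]
  · rw [if_neg hi, if_neg hj, if_neg (by simp [hj, Ne.symm hij]), if_neg (by simp [hi, hij]),
      smul_smul, smul_smul, sgn_anti hij hi hj, Finset.insert_comm j i J, neg_smul]

variable [Fintype ι]

/-- The Koszul differential for operators `a i`. -/
noncomputable def kd (a : ι → N →ₗ[k] N) : (Finset ι → N) →ₗ[k] (Finset ι → N) where
  toFun ω J := ∑ i, if i ∈ J then 0 else sgn J i • a i (ω (insert i J))
  map_add' ω ω' := by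
    funext J
    simp only [Pi.add_apply, map_add, smul_add]
    rw [← Finset.sum_add_distrib]
    refine Finset.sum_congr rfl fun i _ => ?_
    split_ifs <;> simp
  map_smul' c ω := by
    funext J
    simp only [Pi.smul_apply, RingHom.id_apply, Finset.smul_sum, map_smul]
    refine Finset.sum_congr rfl fun i _ => ?_
    split_ifs
    · simp
    · rw [smul_comm]

lemma kd_apply (a : ι → N →ₗ[k] N) (ω : Finset ι → N) (J : Finset ι) :
    kd a ω J = ∑ i, if i ∈ J then 0 else sgn J i • a i (ω (insert i J)) := rfl

lemma kd_eq_con (a : ι → N →ₗ[k] N) (ω : Finset ι → N) (J : Finset ι) :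
    kd a ω J = ∑ i, a i (con k i ω J) := by
  rw [kd_apply]
  refine Finset.sum_congr rfl fun i _ => ?_
  rw [con_apply]
  split_ifs
  · simp
  · rw [map_zsmul]

theorem kd_kd [CharZero k] (a : ι → N →ₗ[k] N) (ha : ∀ i j n, a i (a j n) = a j (a i n))
    (ω : Finset ι → N) : kd a (kd a ω) = 0 := by
  funext J
  have h1 : kd a (kd a ω) J = ∑ i, ∑ j, a i (a j (con k i (con k j ω) J)) := by
    rw [kd_eq_con]
    refine Finset.sum_congr rfl fun i _ => ?_
    rw [con_apply]
    by_cases hi : i ∈ J
    · simp [con_apply, hi]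
    · rw [if_neg hi, kd_eq_con, Finset.smul_sum, map_sum]
      refine Finset.sum_congr rfl fun j _ => ?_
      rw [con_apply (k := k) i (con k j ω) J, if_neg hi, map_zsmul, map_zsmul, map_zsmul]
  have h2 : kd a (kd a ω) J = - kd a (kd a ω) J := by
    conv_lhs => rw [h1, Finset.sum_comm]
    rw [h1, ← Finset.sum_neg_distrib]
    refine Finset.sum_congr rfl fun i _ => ?_
    rw [← Finset.sum_neg_distrib]
    refine Finset.sum_congr rfl fun j _ => ?_
    rw [con_con (k := k) j i, Pi.neg_apply, map_neg, map_neg, ha j i]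
  have h3 : (2 : k) • kd a (kd a ω) J = 0 := by
    rw [two_smul]
    nth_rewrite 2 [h2]
    simp
  exact (smul_eq_zero.1 h3).resolve_left two_ne_zero

end Kd

end VerBS
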