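import Pool.Agent.Lib.MP_86fd08_ag.QI

/-! Artinian reduction in monomial coordinates. -/

namespace VerBS

open Classical

/-- exponent vector of a variable -/
abbrev ex (i : Var 5) : Fin 3 →₀ ℕ := ofLex i.1

lemma ex_degree (i : Var 5) : (ex i).degree = 5 := i.2

/-- The variable `x_a ^ 5`. -/
noncomputable def uv (a : Fin 3) : Var 5 := ⟨toLex (Finsupp.single a 5), by simp⟩

lemma ex_uv (a : Fin 3) : ex (uv a) = Finsupp.single a 5 := rfl

lemma uv_inj {a b : Fin 3} (h : uv a = uv b) : a = b := by
  have h1 : Finsupp.single a 5 = Finsupp.single b 5 := by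
    rw [← ex_uv, ← ex_uv, h]
  by_contra hne
  have := DFunLike.congr_fun h1 a
  rw [Finsupp.single_eq_same, Finsupp.single_eq_of_ne hne] at this
  omega

/-- multiplication by a variable on coefficient functions -/
noncomputable def sh (k : Type*) [Field k] (i : Var 5) :
    ((Fin 3 →₀ ℕ) → k) →ₗ[k] ((Fin 3 →₀ ℕ) → k) where
  toFun f e := if ex i ≤ e then f (e - ex i) else 0
  map_add' f g := by
    funext e
    simp only [Pi.add_apply]
    split_ifs <;> simp
  map_smul' c f := by
    funext e
    simp only [Pi.smul_apply, RingHom.id_apply]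
    split_ifs <;> simp

lemma sh_apply (k : Type*) [Field k] (i : Var 5) (f : (Fin 3 →₀ ℕ) → k) (e : Fin 3 →₀ ℕ) :
    sh k i f e = if ex i ≤ e then f (e - ex i) else 0 := rfl

lemma sh_comm (k : Type*) [Field k] (i j : Var 5) (f : (Fin 3 →₀ ℕ) → k) :
    sh k i (sh k j f) = sh k j (sh k i f) := by
  funext e
  simp only [sh_apply]
  by_cases h : ex i + ex j ≤ e
  · have hi : ex i ≤ e := le_trans (by simp) h
    have hj : ex j ≤ e := le_trans (by simp) h
    have hi' : ex i ≤ e - ex j := (le_tsub_iff_right hj).2 h
    have hj' : ex j ≤ e - ex i := (le_tsub_iff_left hi).2 h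
    rw [if_pos hi, if_pos hj, if_pos hi', if_pos hj', tsub_tsub, tsub_tsub, add_comm]
  · have h1 : ¬ (ex i ≤ e ∧ ex j ≤ e - ex i) := fun ⟨h1, h2⟩ => h ((le_tsub_iff_left h1).1 h2)
    have h2 : ¬ (ex j ≤ e ∧ ex i ≤ e - ex j) := fun ⟨h1, h2⟩ => h ((le_tsub_iff_right h1).1 h2)
    rw [not_and] at h1 h2
    split_ifs with a b c c <;> first | rfl | exact absurd ‹_› (h1 ‹_›) | exact absurd ‹_› (h2 ‹_›)

/-- coordinates of the complex -/
abbrev Co (k : Type*) := Finset (Var 5) → (Fin 3 →₀ ℕ) → k

/-- The region of stage `s`: the variables `x_a ^ 5`, `a < s`, have been divided out. -/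
def Reg (s : ℕ) (J : Finset (Var 5)) (e : Fin 3 →₀ ℕ) : Prop :=
  ∀ a : Fin 3, a.val < s → e a ≤ 4 ∧ uv a ∉ J

lemma Reg_zero (J : Finset (Var 5)) (e : Fin 3 →₀ ℕ) : Reg 0 J e :=
  fun _ h => absurd h (Nat.not_lt_zero _)

lemma Reg_step {s : ℕ} {J : Finset (Var 5)} {e : Fin 3 →₀ ℕ} (h : Reg s J e) {i : Var 5}
    (hi : ex i ≤ e) : Reg s (insert i J) (e - ex i) := by
  intro a ha
  obtain ⟨h1, h2⟩ := h a ha
  refine ⟨le_trans (by simp) h1, ?_⟩
  rw [Finset.mem_insert, not_or]
  refine ⟨?_, h2⟩
  rintro rfl
  have := hi a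
  rw [ex_uv, Finsupp.single_eq_same] at this
  omega

/-- The differential of stage `s`. -/
noncomputable def Dst (k : Type*) [Field k] (s : ℕ) : Co k →ₗ[k] Co k where
  toFun ω J e := if Reg s J e then kd (sh k) ω J e else 0
  map_add' f g := by
    funext J e
    simp only [map_add, Pi.add_apply]
    split_ifs <;> simp
  map_smul' c f := by
    funext J e
    simp only [map_smul, Pi.smul_apply, RingHom.id_apply]
    split_ifs <;> simp

lemma Dst_apply (k : Type*) [Field k] (s : ℕ) (ω : Co k) (J : Finset (Var 5))
    (e : Fin 3 →₀ ℕ) : Dst k s ω J e = if Reg s J e then kd (sh k) ω J e else 0 := rfl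

lemma kd_sh_apply (k : Type*) [Field k] (ω : Co k) (J : Finset (Var 5)) (e : Fin 3 →₀ ℕ) :
    kd (sh k) ω J e = ∑ i : Var 5, if i ∉ J ∧ ex i ≤ e then
      sgn J i • ω (insert i J) (e - ex i) else 0 := by
  rw [kd_apply, Finset.sum_apply]
  refine Finset.sum_congr rfl fun i _ => ?_
  by_cases hi : i ∈ J
  · simp [hi]
  · rw [if_neg hi, Pi.smul_apply, sh_apply]
    by_cases h : ex i ≤ e
    · rw [if_pos h, if_pos ⟨hi, h⟩]
      exact congrArg (fun S => sgn J i • ω S (e - ex i)) (ins_eq _ _ i J)
    · simp [h]

/-- The part of bidegree `(p, q)` in stage `s`. -/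
def Cst (k : Type*) [Field k] (s : ℕ) (p : ℕ) (q : ℤ) : Submodule k (Co k) where
  carrier := {ω | ∀ J e, ω J e ≠ 0 → J.card = p ∧ ((e.degree : ℕ) : ℤ) = 1 + 5 * q ∧ Reg s J e}
  zero_mem' := fun J e h => absurd rfl h
  add_mem' := by
    intro ω ω' h h' J e hne
    by_cases h0 : ω J e = 0
    · refine h' J e fun h1 => hne ?_
      rw [Pi.add_apply, Pi.add_apply, h0, h1, add_zero]
    · exact h J e h0
  smul_mem' := by
    intro c ω h J e hne
    refine h J e fun h1 => hne ?_
    rw [Pi.smul_apply, Pi.smul_apply, h1, smul_zero]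

lemma mem_Cst {k : Type*} [Field k] {s : ℕ} {p : ℕ} {q : ℤ} {ω : Co k} :
    ω ∈ Cst k s p q ↔ ∀ J e, ω J e ≠ 0 → J.card = p ∧ ((e.degree : ℕ) : ℤ) = 1 + 5 * q ∧ Reg s J e :=
  Iff.rfl

lemma Dst_zero (k : Type*) [Field k] (s : ℕ) (q : ℤ) (ω : Co k) (h : ω ∈ Cst k s 0 q) :
    Dst k s ω = 0 := by
  funext J e
  rw [Dst_apply, kd_sh_apply]
  rw [Finset.sum_eq_zero]
  · simp
  · intro i _
    by_cases h1 : ω (insert i J) (e - ex i) = 0
    · simp [h1]
    · have := (h _ _ h1).1
      rw [Finset.card_eq_zero] at this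
      exact absurd this (Finset.insert_ne_empty _ _)

lemma Dst_mem (k : Type*) [Field k] (s : ℕ) (p : ℕ) (q : ℤ) (ω : Co k)
    (h : ω ∈ Cst k s (p + 1) q) : Dst k s ω ∈ Cst k s p (q + 1) := by
  intro J e hne
  rw [Dst_apply] at hne
  have hR : Reg s J e := by
    by_contra h1
    rw [if_neg h1] at hne
    exact hne rfl
  rw [if_pos hR, kd_sh_apply] at hne
  obtain ⟨i, -, hi⟩ := Finset.exists_ne_zero_of_sum_ne_zero hne
  have h1 : i ∉ J ∧ ex i ≤ e := by
    by_contra h1
    rw [if_neg h1] at hi
    exact hi rfl
  rw [if_pos h1] at hi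
  have h2 : ω (insert i J) (e - ex i) ≠ 0 := fun h2 => hi (by rw [h2, smul_zero])
  obtain ⟨h3, h4, -⟩ := h _ _ h2
  rw [Finset.card_insert_of_notMem h1.1] at h3
  refine ⟨by omega, ?_, hR⟩
  have h5 : (e - ex i).degree + (ex i).degree = e.degree := by
    rw [← map_add, tsub_add_cancel_of_le h1.2]
  rw [ex_degree] at h5
  push_cast [← h5]
  linarith

lemma Dst_Dst (k : Type*) [Field k] [CharZero k] (s : ℕ) (ω : Co k) :
    Dst k s (Dst k s ω) = 0 := by
  funext J e
  rw [Dst_apply]
  by_cases hR : Reg s J e
  · rw [if_pos hR]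
    have h1 : kd (sh k) (Dst k s ω) J e = kd (sh k) (kd (sh k) ω) J e := by
      rw [kd_sh_apply, kd_sh_apply]
      refine Finset.sum_congr rfl fun i _ => ?_
      by_cases h : i ∉ J ∧ ex i ≤ e
      · rw [if_pos h, if_pos h, Dst_apply, if_pos (Reg_step hR h.2)]
      · rw [if_neg h, if_neg h]
    rw [h1, kd_kd (sh k) (sh_comm k)]
  · rw [if_neg hR]
    rfl

/-- restriction from stage `s` to a later stage -/
noncomputable def res (k : Type*) [Field k] (s : ℕ) : Co k →ₗ[k] Co k where
  toFun ω J e := if Reg s J e then ω J e else 0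
  map_add' f g := by
    funext J e
    simp only [Pi.add_apply]
    split_ifs <;> simp
  map_smul' c f := by
    funext J e
    simp only [Pi.smul_apply, RingHom.id_apply]
    split_ifs <;> simp

lemma res_apply (k : Type*) [Field k] (s : ℕ) (ω : Co k) (J : Finset (Var 5))
    (e : Fin 3 →₀ ℕ) : res k s ω J e = if Reg s J e then ω J e else 0 := rfl

lemma Reg_mono {s t : ℕ} (h : s ≤ t) {J : Finset (Var 5)} {e : Fin 3 →₀ ℕ} (hR : Reg t J e) :
    Reg s J e := fun a ha => hR a (lt_of_lt_of_le ha h)

theorem hd_step (k : Type*) [Field k] [CharZero k] (s : ℕ) (hs : s < 3) (p : ℕ) (q : ℤ) :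
    hd (Dst k s) (Cst k s) p q = hd (Dst k (s + 1)) (Cst k (s + 1)) p q := by
  refine hd_eq _ _ _ _ (res k (s + 1)) ?_ ?_ (fun q ω h => Dst_zero k s q ω h)
    (fun p q ω h => Dst_mem k s p q ω h) (Dst_Dst k s) ?_ p q
  · intro p q ω _
    funext J e
    rw [res_apply, Dst_apply, Dst_apply]
    by_cases hR : Reg (s + 1) J e
    · rw [if_pos hR, if_pos hR, if_pos (Reg_mono (Nat.le_succ s) hR), kd_sh_apply, kd_sh_apply]
      refine Finset.sum_congr rfl fun i _ => ?_
      by_cases h : i ∉ J ∧ ex i ≤ e
      · rw [if_pos h, if_pos h, res_apply, if_pos (Reg_step hR h.2)]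
      · rw [if_neg h, if_neg h]
    · rw [if_neg hR, if_neg hR]
  · intro p q
    apply le_antisymm
    · rintro _ ⟨ω, hω, rfl⟩
      intro J e hne
      rw [res_apply] at hne
      by_cases hR : Reg (s + 1) J e
      · rw [if_pos hR] at hne
        obtain ⟨h1, h2, -⟩ := hω J e hne
        exact ⟨h1, h2, hR⟩
      · rw [if_neg hR] at hne
        exact absurd rfl hne
    · intro τ hτ
      refine ⟨τ, ?_, ?_⟩
      · intro J e hne
        obtain ⟨h1, h2, h3⟩ := hτ J e hne
        exact ⟨h1, h2, Reg_mono (Nat.le_succ s) h3⟩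
      · funext J e
        rw [res_apply]
        split_ifs with hR
        · rfl
        · by_contra hne
          exact hR (hτ J e (Ne.symm hne)).2.2
  · intro p q ω hω hD hres
    set a : Fin 3 := ⟨s, hs⟩ with ha
    set u := uv a with hu
    have hexu : ex u = Finsupp.single a 5 := rfl
    -- the primitive
    let η : Co k := fun J e => if u ∈ J then
      sgn (J.erase u) u • ω (J.erase u) (e + ex u) else 0
    have hη : η ∈ Cst k s (p + 1) (q - 1) := by
      intro J e hne
      have huJ : u ∈ J := by
        by_contra h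
        exact hne (if_neg h)
      have h1 : ω (J.erase u) (e + ex u) ≠ 0 := by
        intro h
        apply hne
        change (if u ∈ J then _ else _) = _
        rw [if_pos huJ, h, smul_zero]
      obtain ⟨h2, h3, h4⟩ := hω _ _ h1
      refine ⟨?_, ?_, ?_⟩
      · rw [← h2, Finset.card_erase_add_one huJ]
      · rw [map_add, ex_degree] at h3
        push_cast at h3
        linarith
      · intro b hb
        obtain ⟨h5, h6⟩ := h4 b hb
        have hab : b ≠ a := by
          rintro rfl
          simp [ha] at hb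
        refine ⟨le_trans (by simp) h5, ?_⟩
        intro h7
        refine h6 (Finset.mem_erase.2 ⟨?_, h7⟩)
        intro h8
        exact hab (uv_inj h8)
    have hDη : ∀ J e, u ∉ J → Dst k s η J e = ω J e := by
      intro J e huJ
      rw [Dst_apply]
      by_cases hR : Reg s J e
      · rw [if_pos hR, kd_sh_apply]
        rw [Finset.sum_eq_single u]
        · by_cases h5 : ex u ≤ e
          · rw [if_pos ⟨huJ, h5⟩]
            change sgn J u • (if u ∈ insert u J then _ else _) = _
            rw [if_pos (Finset.mem_insert_self _ _), Finset.erase_insert huJ,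
              tsub_add_cancel_of_le h5, smul_smul, sgn_mul_self, one_smul]
          · rw [if_neg (fun h => h5 h.2)]
            have hR' : Reg (s + 1) J e := by
              intro b hb
              rcases Nat.lt_succ_iff_lt_or_eq.1 hb with h6 | h6
              · exact hR b h6
              · have hba : b = a := Fin.ext h6
                rw [hba]
                refine ⟨?_, huJ⟩
                by_contra h7
                apply h5
                rw [hexu, Finsupp.single_le_iff]
                omega
            have h8 := congrFun (congrFun hres J) e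
            rw [res_apply, if_pos hR'] at h8
            exact h8.symm
        · intro i _ hiu
          by_cases h : i ∉ J ∧ ex i ≤ e
          · rw [if_pos h]
            change sgn J i • (if u ∈ insert i J then _ else _) = _
            rw [if_neg, smul_zero]
            rw [Finset.mem_insert, not_or]
            exact ⟨fun h => hiu h.symm, huJ⟩
          · rw [if_neg h]
        · intro h
          exact absurd (Finset.mem_univ _) h
      · rw [if_neg hR]
        by_contra hne
        exact hR (hω J e (Ne.symm hne)).2.2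
    refine ⟨η, hη, ?_, ?_⟩
    · funext J e
      rw [res_apply]
      by_cases hR : Reg (s + 1) J e
      · rw [if_pos hR]
        exact if_neg (hR a (by simp [ha])).2
      · rw [if_neg hR]
        rfl
    · have hDηm : Dst k s η ∈ Cst k s p q := by
        have := Dst_mem k s p (q - 1) η hη
        simpa using this
      set ω' := ω - Dst k s η with hω'
      have h1 : ω' ∈ Cst k s p q := Submodule.sub_mem _ hω hDηm
      have h2 : Dst k s ω' = 0 := by
        rw [hω', map_sub, hD, Dst_Dst, sub_zero]
      have h3 : ∀ J e, u ∉ J → ω' J e = 0 := by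
        intro J e huJ
        rw [hω', Pi.sub_apply, Pi.sub_apply, hDη J e huJ, sub_self]
      have h4 : ∀ J e, ω' J e = 0 := by
        intro J e
        by_cases huJ : u ∈ J
        · by_contra hne
          have hR := (h1 J e hne).2.2
          have hR' : Reg s (J.erase u) (e + ex u) := by
            intro b hb
            obtain ⟨h5, h6⟩ := hR b hb
            have hab : b ≠ a := by
              rintro rfl
              simp [ha] at hb
            refine ⟨?_, fun h7 => h6 (Finset.mem_of_mem_erase h7)⟩
            rw [Finsupp.add_apply, hexu, Finsupp.single_eq_of_ne hab]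
            simpa using h5
          have h5 := congrFun (congrFun h2 (J.erase u)) (e + ex u)
          rw [Dst_apply, if_pos hR', kd_sh_apply, Finset.sum_eq_single u] at h5
          · rw [if_pos ⟨Finset.notMem_erase _ _, by simp⟩, Finset.insert_erase huJ,
              add_tsub_cancel_right] at h5
            have h6 : sgn (J.erase u) u • (sgn (J.erase u) u • ω' J e) = 0 := by
              rw [h5]; simp
            rw [smul_smul, sgn_mul_self, one_smul] at h6
            exact hne h6
          · intro i _ hiu
            by_cases h : i ∉ J.erase u ∧ ex i ≤ e + ex u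
            · rw [if_pos h, h3, smul_zero]
              rw [Finset.mem_insert, not_or]
              exact ⟨fun h => hiu h.symm, Finset.notMem_erase _ _⟩
            · rw [if_neg h]
          · intro h
            exact absurd (Finset.mem_univ _) h
        · exact h3 J e huJ
      have h5 : ω' = 0 := by
        funext J e
        exact h4 J e
      rw [hω', sub_eq_zero] at h5
      exact h5.symm

end VerBS
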