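import Pool.Agent.Lib.MP_86fd08_ag.Rank
import Pool.Agent.Lib.MP_86fd08_ag.Low
import Pool.Agent.Lib.MP_86fd08_ag.Det

/-! The Betti table for `b = 1`, `d = 5`. -/

namespace VerBS

open Classical

variable {k : Type*} [Field k]

/-- homology dimension of the finite complex -/
noncomputable def HH (k : Type*) [Field k] (p : ℕ) (q : ℤ) : ℕ := hd (Am k).mulVecLin (Cb k) p q

/-- rank of the differential of the finite complex on bidegree `(p, q)` -/
noncomputable def rr (k : Type*) [Field k] (p : ℕ) (q : ℤ) : ℕ :=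
  Module.finrank k ((Cb k p q).map (Am k).mulVecLin)

theorem betti_HH [CharZero k] (p : ℕ) (j : ℤ) : betti k 1 5 p j = HH k p (j - p) := by
  rw [betti_eq, hd_kos, hd_step k 0 (by norm_num), hd_step k 1 (by norm_num),
    hd_step k 2 (by norm_num), hd_fin]
  rfl

theorem HH_kos [CharZero k] (p : ℕ) (q : ℤ) : HH k p q = hd (kos k 5) (part k 1 5) p q := by
  rw [hd_kos, hd_step k 0 (by norm_num), hd_step k 1 (by norm_num),
    hd_step k 2 (by norm_num), hd_fin]
  rfl

theorem HH_zero [CharZero k] (p : ℕ) (q : ℤ) : HH k p q = hd (Dst k 0) (Cst k 0) p q := by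
  rw [hd_step k 0 (by norm_num), hd_step k 1 (by norm_num),
    hd_step k 2 (by norm_num), hd_fin]
  rfl

lemma HH_add [CharZero k] (p : ℕ) (q : ℤ) :
    HH k p q + rr k p q + rr k (p + 1) (q - 1) = Module.finrank k (Cb k p q) :=
  hd_add _ _ (fun p q ω h => Am_mem p q ω h) (fun p q ω h => Am_Am p q ω h) p q

lemma dim_q (p : ℕ) (q : ℤ) (n c : ℕ) (hn : (n : ℤ) = 1 + 5 * q)
    (hc : (Finset.univ.filter (fun e : Bx => ∑ a, (e a : ℕ) = n)).card = c) :
    Module.finrank k (Cb k p q) = Nat.choose 18 p * c := by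
  rw [finrank_Cb p n q hn, hc]

lemma dim_zero (p : ℕ) : Module.finrank k (Cb k p 0) = Nat.choose 18 p * 3 :=
  dim_q p 0 1 3 (by norm_num) (by decide +kernel)

lemma dim_one (p : ℕ) : Module.finrank k (Cb k p 1) = Nat.choose 18 p * 19 :=
  dim_q p 1 6 19 (by norm_num) (by decide +kernel)

lemma dim_two (p : ℕ) : Module.finrank k (Cb k p 2) = Nat.choose 18 p * 3 :=
  dim_q p 2 11 3 (by norm_num) (by decide +kernel)

lemma toE_le (e : Bx) : (toE e).degree ≤ 12 := by
  rw [deg_toE, Fin.sum_univ_three]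
  omega

lemma Cb_neg (p : ℕ) (q : ℤ) (hq : q < 0) : Cb k p q = ⊥ := by
  rw [eq_bot_iff]
  intro ω hω
  rw [Submodule.mem_bot]
  funext y
  by_contra hne
  have := (hω y hne).2
  omega

lemma Cb_big (p : ℕ) (q : ℤ) (hq : 3 ≤ q) : Cb k p q = ⊥ := by
  rw [eq_bot_iff]
  intro ω hω
  rw [Submodule.mem_bot]
  funext y
  by_contra hne
  have := (hω y hne).2
  have := toE_le y.2
  omega

lemma rr_neg (p : ℕ) (q : ℤ) (hq : q < 0) : rr k p q = 0 := by
  unfold rr
  rw [Cb_neg p q hq, Submodule.map_bot]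
  exact finrank_bot k _

lemma rr_zero_left (q : ℤ) : rr k 0 q = 0 := by
  unfold rr
  have : (Cb k 0 q).map (Am k).mulVecLin = ⊥ := by
    rw [eq_bot_iff]
    rintro _ ⟨ω, hω, rfl⟩
    rw [SetLike.mem_coe, ← pr_map] at hω
    obtain ⟨θ, hθ, rfl⟩ := hω
    rw [← pr_D, Dst_zero k 3 q θ hθ, map_zero]
    exact Submodule.zero_mem _
  rw [this]
  exact finrank_bot k _

lemma rr_two (p : ℕ) : rr k p 2 = 0 := by
  cases p with
  | zero => exact rr_zero_left 2
  | succ p =>
    unfold rr
    have : (Cb k (p + 1) 2).map (Am k).mulVecLin = ⊥ := by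
      rw [eq_bot_iff]
      rintro _ ⟨ω, hω, rfl⟩
      have h := Am_mem p 2 ω hω
      rw [Cb_big p (2 + 1) (by norm_num)] at h
      exact h
    rw [this]
    exact finrank_bot k _

lemma rr_big (p : ℕ) (q : ℤ) (hq : 3 ≤ q) : rr k p q = 0 := by
  unfold rr
  rw [Cb_big p q hq, Submodule.map_bot]
  exact finrank_bot k _

lemma rr_dual (p : ℕ) (hp : p ≤ 18) : rr k (p + 1) 1 = rr k (18 - p) 0 := by
  unfold rr
  rw [finrank_map (p + 1) 6 1 (by norm_num), finrank_map (18 - p) 1 0 (by norm_num)]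
  exact rank_dual p hp

lemma HH_out [CharZero k] (p : ℕ) (q : ℤ) (h : q < 0 ∨ 3 ≤ q ∨ 19 ≤ p) : HH k p q = 0 := by
  have h1 := HH_add (k := k) p q
  rcases h with h | h | h
  · rw [Cb_neg p q h, finrank_bot] at h1
    omega
  · rw [Cb_big p q h, finrank_bot] at h1
    omega
  · by_cases hq : q < 0
    · rw [Cb_neg p q hq, finrank_bot] at h1
      omega
    · rw [finrank_Cb p (1 + 5 * q).toNat q (by omega), Nat.choose_eq_zero_of_lt (by omega),
        zero_mul] at h1
      omega

/-- the numbers `K_{p,0}` -/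
def kap (p : ℕ) : ℕ := if p = 0 then 3 else if p = 1 then 35 else if p = 2 then 120 else 0

/-- the ranks `r_{p,0}` -/
lemma rr_col_zero [CharZero k] (p : ℕ) :
    HH k p 0 = kap p ∧ rr k p 0 + kap p = Nat.choose 18 p * 3 := by
  have hadd := HH_add (k := k) p 0
  rw [dim_zero, rr_neg (p + 1) (0 - 1) (by norm_num), add_zero] at hadd
  suffices h : HH k p 0 = kap p by
    refine ⟨h, ?_⟩
    rw [← h]
    omega
  rcases Nat.lt_or_ge p 3 with h | h
  · interval_cases p
    · rw [rr_zero_left] at hadd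
      simp [kap] at hadd ⊢
      omega
    · -- `K_{0,1} = 0`
      have h1 := HH_add (k := k) 0 1
      rw [dim_one, HH_zero, hd_zero_zero 1 le_rfl, rr_zero_left] at h1
      simp [kap] at hadd h1 ⊢
      omega
    · have h1 := HH_add (k := k) 0 2
      rw [dim_two, HH_zero, hd_zero_zero 2 (by norm_num), rr_zero_left] at h1
      have h2 := HH_add (k := k) 1 1
      rw [dim_one, HH_zero, hd_one_one] at h2
      have h3 : Nat.choose 18 2 = 153 := by decide
      rw [h3] at hadd
      norm_num [kap] at hadd h1 h2 ⊢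
      omega
  · rw [HH_kos, hd_zero_of_three_le p h]
    unfold kap
    rw [if_neg (by omega), if_neg (by omega), if_neg (by omega)]

/-- the numbers `K_{p,1}` -/
def mid (p : ℕ) : ℕ := match p with
  | 2 => 405
  | 3 => 5865
  | 4 => 29988
  | 5 => 97920
  | 6 => 231540
  | 7 => 417690
  | 8 => 590070
  | 9 => 661232
  | 10 => 590070
  | 11 => 417690
  | 12 => 231540
  | 13 => 97920
  | 14 => 29988
  | 15 => 5865
  | 16 => 405
  | _ => 0

lemma HH_col_two [CharZero k] (p : ℕ) (hp : p ≤ 18) : HH k p 2 = kap (18 - p) := by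
  have h1 := HH_add (k := k) p 2
  have h2 := (rr_col_zero (k := k) (18 - p)).2
  have h3 := rr_dual (k := k) p hp
  have h4 := rr_two (k := k) p
  have h5 : Nat.choose 18 (18 - p) = Nat.choose 18 p := Nat.choose_symm hp
  rw [dim_two] at h1
  norm_num at h1
  rw [h5] at h2
  omega

lemma HH_col_one [CharZero k] (p : ℕ) (hp : p ≤ 18) : HH k p 1 = mid p := by
  have h1 := HH_add (k := k) p 1
  rw [dim_one] at h1
  norm_num at h1
  have h2 := (rr_col_zero (k := k) (p + 1)).2
  have h3 : rr k p 1 + kap (19 - p) = Nat.choose 18 (19 - p) * 3 := by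
    cases p with
    | zero =>
      rw [rr_zero_left]
      rfl
    | succ p =>
      rw [rr_dual p (by omega)]
      have := (rr_col_zero (k := k) (18 - p)).2
      have e : 19 - (p + 1) = 18 - p := by omega
      rw [e]
      exact this
  interval_cases p <;> simp only [kap, mid] at h1 h2 h3 ⊢ <;>
    norm_num [Nat.choose] at h1 h2 h3 ⊢ <;> omega

end VerBS
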