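import Pool.Agent.Lib.MP_86fd08_ag.Defs

/-! Uniqueness of Boij-Soederberg decompositions. -/

namespace VerBS

lemma DegSeq.ext' {D D' : DegSeq} (hr : D.r = D'.r)
    (h : ∀ (i : ℕ) (h1 : i < D.r + 1) (h2 : i < D'.r + 1), D.deg ⟨i, h1⟩ = D'.deg ⟨i, h2⟩) :
    D = D' := by
  obtain ⟨r, deg, m⟩ := D
  obtain ⟨r', deg', m'⟩ := D'
  simp only at hr
  subst hr
  have : deg = deg' := by
    funext i
    exact h i i.2 i.2
  subst this
  rfl

lemma pure_self_pos (D : DegSeq) (i : ℕ) (h : i < D.r + 1) : 0 < D.pure i (D.deg ⟨i, h⟩) := by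
  unfold DegSeq.pure
  rw [dif_pos h, if_pos rfl]
  refine Finset.prod_pos fun l hl => ?_
  rw [Finset.mem_erase] at hl
  refine one_div_pos.2 (abs_pos.2 ?_)
  rw [Int.cast_ne_zero, sub_ne_zero]
  intro h1
  exact hl.1 (D.mono.injective h1)

lemma pure_nonneg (D : DegSeq) (i : ℕ) (j : ℤ) : 0 ≤ D.pure i j := by
  unfold DegSeq.pure
  split_ifs
  · exact Finset.prod_nonneg fun l _ => one_div_nonneg.2 (abs_nonneg _)
  · exact le_rfl
  · exact le_rfl

lemma pure_ne_zero {D : DegSeq} {i : ℕ} {j : ℤ} (h : D.pure i j ≠ 0) :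
    ∃ h1 : i < D.r + 1, j = D.deg ⟨i, h1⟩ := by
  unfold DegSeq.pure at h
  split_ifs at h with h1 h2
  · exact ⟨h1, h2⟩
  · exact absurd rfl h
  · exact absurd rfl h

lemma Le_refl (D : DegSeq) : D.Le D := ⟨le_rfl, fun _ _ _ => le_rfl⟩

variable {β : ℕ → ℤ → ℚ}

lemma bs_ge {s : ℕ} {D : Fin s → DegSeq} {a : Fin s → ℚ} (h : IsBS β D a) (t : Fin s) (i : ℕ)
    (j : ℤ) : a t * (D t).pure i j ≤ β i j := by
  rw [h.sum_eq]
  exact Finset.single_le_sum (f := fun t => a t * (D t).pure i j)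
    (fun u _ => mul_nonneg (h.pos u).le (pure_nonneg _ _ _)) (Finset.mem_univ t)

lemma bs_zero_le {s : ℕ} {D : Fin (s + 1) → DegSeq} {a : Fin (s + 1) → ℚ} (h : IsBS β D a)
    (t : Fin (s + 1)) : (D 0).Le (D t) := by
  rcases Fin.eq_zero_or_eq_succ t with rfl | ⟨u, rfl⟩
  · exact Le_refl _
  · exact (h.chain 0 u.succ (Fin.succ_pos u)).1

lemma bs_top {s : ℕ} {D : Fin (s + 1) → DegSeq} {a : Fin (s + 1) → ℚ} (h : IsBS β D a)
    (i : ℕ) (j : ℤ) (hne : β i j ≠ 0) : ∃ h1 : i < (D 0).r + 1, (D 0).deg ⟨i, h1⟩ ≤ j := by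
  rw [h.sum_eq] at hne
  obtain ⟨t, -, ht⟩ := Finset.exists_ne_zero_of_sum_ne_zero hne
  obtain ⟨h1, h2⟩ := pure_ne_zero (right_ne_zero_of_mul ht)
  obtain ⟨h3, h4⟩ := bs_zero_le h t
  have h5 : i < (D 0).r + 1 := by omega
  exact ⟨h5, by rw [h2]; exact h4 i h5 h1⟩

lemma bs_pos {s : ℕ} {D : Fin (s + 1) → DegSeq} {a : Fin (s + 1) → ℚ} (h : IsBS β D a)
    (i : ℕ) (h1 : i < (D 0).r + 1) : 0 < β i ((D 0).deg ⟨i, h1⟩) :=
  lt_of_lt_of_le (mul_pos (h.pos 0) (pure_self_pos _ _ _)) (bs_ge h 0 i _)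

lemma bs_tight {s : ℕ} {D : Fin (s + 1) → DegSeq} {a : Fin (s + 1) → ℚ} (h : IsBS β D a) :
    ∃ (i : ℕ) (h1 : i < (D 0).r + 1), β i ((D 0).deg ⟨i, h1⟩) =
      a 0 * (D 0).pure i ((D 0).deg ⟨i, h1⟩) := by
  rcases Nat.eq_zero_or_pos s with hs | hs
  · subst hs
    refine ⟨0, Nat.succ_pos _, ?_⟩
    rw [h.sum_eq, Fin.sum_univ_one]
  · have h01 := h.chain 0 ⟨1, by omega⟩ (by
      rw [Fin.lt_def]; simp)
    set D1 := D ⟨1, by omega⟩ with hD1
    obtain ⟨i, h1, h2⟩ : ∃ (i : ℕ) (h1 : i < (D 0).r + 1), ∀ h2 : i < D1.r + 1,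
        (D 0).deg ⟨i, h1⟩ < D1.deg ⟨i, h2⟩ := by
      by_contra hcon
      push Not at hcon
      apply h01.2
      have hr : (D 0).r = D1.r := by
        apply le_antisymm
        · obtain ⟨h3, -⟩ := hcon (D 0).r (Nat.lt_succ_self _)
          omega
        · exact h01.1.1
      refine DegSeq.ext' hr fun i h3 h4 => le_antisymm (h01.1.2 i h3 h4) ?_
      obtain ⟨_, h6⟩ := hcon i h3
      exact h6
    refine ⟨i, h1, ?_⟩
    rw [h.sum_eq, Finset.sum_eq_single 0]
    · intro t _ ht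
      have h3 : D1.Le (D t) := by
        by_cases h4 : t = ⟨1, by omega⟩
        · rw [h4]; exact Le_refl _
        · refine (h.chain ⟨1, by omega⟩ t ?_).1
          rw [Fin.lt_def]
          have h5 : (t : ℕ) ≠ 0 := fun h => ht (Fin.ext h)
          have h6 : (t : ℕ) ≠ 1 := fun h => h4 (Fin.ext h)
          simp only
          omega
      have h4 : (D t).pure i ((D 0).deg ⟨i, h1⟩) = 0 := by
        by_contra hne
        obtain ⟨h5, h6⟩ := pure_ne_zero hne
        have h7 : i < D1.r + 1 := by have := h3.1; omega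
        have h8 := h2 h7
        have h9 := h3.2 i h7 h5
        omega
      rw [h4, mul_zero]
    · intro h3
      exact absurd (Finset.mem_univ _) h3

theorem bs_unique : ∀ (s : ℕ) (β : ℕ → ℤ → ℚ) (D : Fin s → DegSeq) (a : Fin s → ℚ)
    (s' : ℕ) (D' : Fin s' → DegSeq) (a' : Fin s' → ℚ), IsBS β D a → IsBS β D' a' →
    ∃ e : s = s', ∀ t : Fin s, D t = D' (Fin.cast e t) ∧ a t = a' (Fin.cast e t) := by
  intro s
  induction s with
  | zero =>
    intro β D a s' D' a' h h'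
    cases s' with
    | zero => exact ⟨rfl, fun t => t.elim0⟩
    | succ s' =>
      have h1 := bs_pos h' 0 (Nat.succ_pos _)
      rw [h.sum_eq, Fin.sum_univ_zero] at h1
      exact absurd h1 (lt_irrefl _)
  | succ s ih =>
    intro β D a s' D' a' h h'
    cases s' with
    | zero =>
      have h1 := bs_pos h 0 (Nat.succ_pos _)
      rw [h'.sum_eq, Fin.sum_univ_zero] at h1
      exact absurd h1 (lt_irrefl _)
    | succ s' =>
      have hr : (D 0).r = (D' 0).r := by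
        obtain ⟨h1, -⟩ := bs_top h' (D 0).r _ (bs_pos h (D 0).r (Nat.lt_succ_self _)).ne'
        obtain ⟨h2, -⟩ := bs_top h (D' 0).r _ (bs_pos h' (D' 0).r (Nat.lt_succ_self _)).ne'
        omega
      have hD : D 0 = D' 0 := by
        refine DegSeq.ext' hr fun i h1 h2 => le_antisymm ?_ ?_
        · obtain ⟨_, h3⟩ := bs_top h i _ (bs_pos h' i h2).ne'
          exact h3
        · obtain ⟨_, h3⟩ := bs_top h' i _ (bs_pos h i h1).ne'
          exact h3
      have ha : a 0 = a' 0 := by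
        apply le_antisymm
        · obtain ⟨i, h1, h2⟩ := bs_tight h'
          have h3 := bs_ge h 0 i ((D' 0).deg ⟨i, h1⟩)
          rw [h2, hD] at h3
          exact le_of_mul_le_mul_right h3 (pure_self_pos _ _ _)
        · obtain ⟨i, h1, h2⟩ := bs_tight h
          have h3 := bs_ge h' 0 i ((D 0).deg ⟨i, h1⟩)
          rw [h2, ← hD] at h3
          exact le_of_mul_le_mul_right h3 (pure_self_pos _ _ _)
      have k1 : IsBS (fun i j => β i j - a 0 * (D 0).pure i j) (fun t : Fin s => D t.succ)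
          (fun t => a t.succ) := by
        refine ⟨fun t t' htt => h.chain _ _ (Fin.succ_lt_succ_iff.2 htt), fun t => h.pos _, ?_⟩
        intro i j
        rw [h.sum_eq, Fin.sum_univ_succ]
        ring
      have k2 : IsBS (fun i j => β i j - a 0 * (D 0).pure i j) (fun t : Fin s' => D' t.succ)
          (fun t => a' t.succ) := by
        refine ⟨fun t t' htt => h'.chain _ _ (Fin.succ_lt_succ_iff.2 htt), fun t => h'.pos _, ?_⟩
        intro i j
        rw [h'.sum_eq, Fin.sum_univ_succ, hD, ha]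
        ring
      obtain ⟨e, he⟩ := ih _ _ _ _ _ _ k1 k2
      subst e
      refine ⟨rfl, fun t => ?_⟩
      rcases Fin.eq_zero_or_eq_succ t with rfl | ⟨u, rfl⟩
      · exact ⟨hD, ha⟩
      · exact he u

end VerBS
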